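import Pool.Agent.H67.RB3.Fin
import Pool.Agent.H51.TC.W1p
import Pool.Agent.H86.HT.Def

/-!
# [H51 HC RBQ] the counting hypothesis for quotients of groups which are `1`, `S_3` or `A_4` modulo `Z_j(G)` (MP_b39724_nt, hypercentral `T`)

* `rbt_map`: `ph : G → H` surjective, `ker ph ≤ Z_j(G)`, `g : G → R` with kernel `Z_j(G)` and `RBA` for `R`: then `RBt K QBar H 1`. The homomorphism `H → R` has the kernel `ph (Z_j(G)) ≤ Z_j(H)`.
* `rbq`: the three cases.
-/

set_option autoImplicit false

open scoped NumberField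
open IsDedekindDomain NumberField H38.ML H63.MA
open scoped Classical

noncomputable section

namespace H51.HC

variable {K : IntermediateField ℚ QBar} [NumberField K]

theorem rbt_map {G H R : Type} [Group G] [Finite G] [Group H] [Group R] (ph : G →* H)
    (hs : Function.Surjective ph) (j : ℕ) (hk : ph.ker ≤ Subgroup.upperCentralSeries G j)
    (g : G →* R) (hg : g.ker = Subgroup.upperCentralSeries G j)
    (hR : ∀ Q : DP K QBar, H86.WP.RBA Q R) : H86.HT.RBt K QBar H 1 := by
  have hfH : Finite H := Finite.of_surjective _ hs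
  have hle : ph.ker ≤ g.ker := by
    rw [hg]
    exact hk
  obtain ⟨f, hf⟩ : ∃ f : H →* R, ∀ x, f (ph x) = g x := by
    refine ⟨(QuotientGroup.lift ph.ker g hle).comp
      (QuotientGroup.quotientKerEquivOfSurjective ph hs).symm.toMonoidHom, fun x => ?_⟩
    have h1 : (QuotientGroup.quotientKerEquivOfSurjective ph hs).symm (ph x) =
        (x : G ⧸ ph.ker) := by
      rw [MulEquiv.symm_apply_eq]
      rfl
    show QuotientGroup.lift ph.ker g hle
      ((QuotientGroup.quotientKerEquivOfSurjective ph hs).symm (ph x)) = g x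
    rw [h1]
    rfl
  have hker : f.ker ≤ Subgroup.upperCentralSeries H j := by
    intro y hy
    obtain ⟨x, rfl⟩ := hs y
    have h1 : x ∈ Subgroup.upperCentralSeries G j := by
      rw [← hg, MonoidHom.mem_ker, ← hf x]
      exact hy
    exact Subgroup.upperCentralSeries.map hs j ⟨x, h1, rfl⟩
  exact H51.TC.rb_of_rba K H fun Q => H86.WP.rba_hyp Q f j hker (hR Q)

theorem rbq {G H : Type} [Group G] [Finite G] [Group H] (ph : G →* H)
    (hs : Function.Surjective ph) (j : ℕ) (hk : ph.ker ≤ Subgroup.upperCentralSeries G j)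
    (h : Subgroup.upperCentralSeries G j = ⊤ ∨
      Nonempty (G ⧸ Subgroup.upperCentralSeries G j ≃* Equiv.Perm (Fin 3)) ∨
      Nonempty (G ⧸ Subgroup.upperCentralSeries G j ≃* alternatingGroup (Fin 4)))
    (ω : K) (hω : IsPrimitiveRoot ω 3) : H86.HT.RBt K QBar H 1 := by
  have key : ∀ (R : Type) [Group R], (G ⧸ Subgroup.upperCentralSeries G j ≃* R) →
      (∀ Q : DP K QBar, H86.WP.RBA Q R) → H86.HT.RBt K QBar H 1 := by
    intro R _ e hR
    refine rbt_map ph hs j hk
      (e.toMonoidHom.comp (QuotientGroup.mk' (Subgroup.upperCentralSeries G j))) ?_ hR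
    ext x
    rw [MonoidHom.mem_ker]
    show e (QuotientGroup.mk' (Subgroup.upperCentralSeries G j) x) = 1 ↔ _
    rw [MulEquiv.map_eq_one_iff]
    exact QuotientGroup.eq_one_iff x
  rcases h with h | ⟨⟨e⟩⟩ | ⟨⟨e⟩⟩
  · refine rbt_map ph hs j hk (1 : G →* Unit) ?_ fun Q => H86.WP.rba_triv Q Unit
    rw [h]
    exact MonoidHom.ker_one
  · exact key _ e fun Q => H67.RB3.rba_s3 Q
  · exact key _ e fun Q => H86.WP.rba_a4 Q (H86.WP.rb_core ω hω (H88.A4.coreBound K ω hω) Q)

end H51.HC
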