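import Pool.Agent.H51.HC.Ser
import Pool.Agent.H86.HT.Gtr
import Pool.Agent.H35.NS2.Fin

/-!
# H51-HC-FIN: theorem HT, from `APm3 p`, `APu3 p` (MP_b39724_nt)

`T` = the subgroup generated by the elements of least index, `T ∩ γ_k(G) = 1`.
* `hpf`: the P-level statements for the frame. `ht_k`: the lower bound, and the asymptotic formula if `RBt K QBar (G / T) θ` with `θ ind(G) < ind(g)` outside `T`. `ht_u`: the upper bound.
-/

set_option autoImplicit false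

open scoped NumberField
open IsDedekindDomain Filter Topology H38.ML
open scoped Classical

noncomputable section

namespace H51.HC

open H63.MA H38.BB H38.BG H57.PC H57.BRA H63.BU H77.PC3 H57.CC H38.AS H77.S0T H77.AB H77.GN
  H77.UX H77.FLD H77.PLF H51.PF H51.NS H51.F3 H12.S3

/-- the condition on the elements of least index of order `2` -/
def CT {n : ℕ} (G : Subgroup (Equiv.Perm (Fin n))) : Prop :=
  (∀ h : G, h ≠ 1 → Spec.ind (h : Equiv.Perm (Fin n)) = Spec.indG G → orderOf h ≠ 2) ∨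
    (Subgroup.closure {h : G | h ≠ 1 ∧ Spec.ind (h : Equiv.Perm (Fin n)) =
      Spec.indG G}).lowerCentralSeries 3 = ⊥ ∨ SerH G

/-- the P-level statements of the frame -/
theorem hpf {p : ℕ} (hp : p.Prime) (hA : APm3 p) (hU : APu3 p) {n N : ℕ}
    {G : Subgroup (Equiv.Perm (Fin n))} {P H : Type} [Group P] [Group H] [Finite P]
    (hN : 1 ≤ N) (F : HF G p N P H)
    (hL : ∃ h : G, h ≠ 1 ∧ Spec.ind (h : Equiv.Perm (Fin n)) = Spec.indG G ∧ orderOf h = p)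
    (hC : CT G) : ∃ M : ℕ, 2 ≤ M ∧ PLf p M F.Q.cP := by
  obtain ⟨M₁, hM₁, h₁⟩ := plf3 hp hA hU (H35.NS2.bl2_all hp) (H35.NS2.gp2_all hp) P F.pg
  obtain ⟨M₂, hM₂, h₂⟩ := plfs hp (H35.NS2.apst2_all hp) (H35.NS2.bl2_all hp)
    (H35.NS2.gp2_all hp) P F.pg
  rcases hC with hC | hC | hC
  · obtain ⟨h, h1, h2, h3⟩ := hL
    exact ⟨M₁, hM₁, h₁ N _ hN (c4_hf F (Or.inl fun h0 => hC h h1 h2 (h3.trans h0)))⟩
  · exact ⟨M₁, hM₁, h₁ N _ hN (c4_hf F (Or.inr hC))⟩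
  · exact ⟨M₂, hM₂, h₂ N _ hN (ser_hf hp F hC)⟩

/-- the frame for `G` -/
theorem hfr (n : ℕ) (hn : 2 ≤ n) (G : Subgroup (Equiv.Perm (Fin n)))
    (hG : MulAction.IsPretransitive G (Fin n)) (k : ℕ)
    (hk : Subgroup.closure (Li G) ⊓ (⊤ : Subgroup G).lowerCentralSeries k = ⊥) :
    ∃ (p N : ℕ) (P H : Type) (_ : Group P) (_ : Group H) (_ : Finite P) (_ : Finite H),
      p.Prime ∧ 1 ≤ N ∧
      (∃ h : G, h ≠ 1 ∧ Spec.ind (h : Equiv.Perm (Fin n)) = Spec.indG G ∧ orderOf h = p) ∧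
      Nonempty (HF G p N P H) := by
  obtain ⟨-, ⟨g₀, hg₀, hg₀'⟩, -, -, -⟩ := H38.BG.pidx_pos hn G hG
  obtain ⟨p, hpd⟩ : ∃ p, p = orderOf g₀ := ⟨_, rfl⟩
  have hp : p.Prime := by
    rw [hpd]
    exact H38.ML.prime_of_least G g₀ hg₀ hg₀'
  have hL : ∀ h ∈ Li G, h ^ p = 1 := fun h hh => by
    rw [hpd, H86.HT.trgy hn G hG k hk g₀ h ⟨hg₀, hg₀'⟩ hh]
    exact pow_orderOf_eq_one h
  obtain ⟨N₀, hN, hN₀, hNT⟩ := H86.HT.n0_ex hn G hG k hk hp hL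
  obtain ⟨N, P, H, iP, iH, fP, fH, hN1, hF⟩ := hfrm n hn G hG hp hL N₀ hN hN₀ hNT
  exact ⟨p, N, P, H, iP, iH, fP, fH, hp, hN1, ⟨g₀, hg₀, hg₀', hpd.symm⟩, hF⟩

/-- a quotient by the subgroup generated by the elements of least index is the group `H` of the frame -/
theorem ht_k (hA : ∀ p : ℕ, p.Prime → APm3 p) (hU : ∀ p : ℕ, p.Prime → APu3 p) (n : ℕ)
    (hn : 2 ≤ n) (G : Subgroup (Equiv.Perm (Fin n))) (hG : MulAction.IsPretransitive G (Fin n))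
    (k : ℕ) (hk : Subgroup.closure (Li G) ⊓ (⊤ : Subgroup G).lowerCentralSeries k = ⊥)
    (hC : CT G) :
    ∃ m : ℕ, 0 < m ∧ 3 ∣ m ∧ ∃ K₀ : IntermediateField ℚ (AlgebraicClosure ℚ), NumberField K₀ ∧
      ∀ K : IntermediateField ℚ (AlgebraicClosure ℚ), ∀ _ : NumberField K,
      (∃ z : K, IsPrimitiveRoot z m) →
        (K₀ ≤ K ∨ Spec.IsGaloisGroup K (AlgebraicClosure ℚ) G) →
          (∃ c B₀ : ℝ, 0 < c ∧ ∀ B : ℝ, B₀ ≤ B →
            ((⌈c * B ^ (1 / (Spec.indG G : ℝ)) *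
              Real.log B ^ (Spec.betaAll K (AlgebraicClosure ℚ) G - 1)⌉₊ : ℕ) : ℕ∞) ≤
                Spec.nK K (AlgebraicClosure ℚ) G B) ∧
          ((∃ θ : ℝ, 0 ≤ θ ∧
            (∀ g : G, g ∉ Subgroup.closure (Li G) →
              θ * (Spec.indG G : ℝ) < (Spec.ind (g : Equiv.Perm (Fin n)) : ℝ)) ∧
            ∀ (H : Type) [Group H] [Finite H] (ph : G →* H), Function.Surjective ph →
              ph.ker = Subgroup.closure (Li G) → H86.HT.RBt K QBar H θ) →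
            Asy G K) := by
  obtain ⟨p, N, P, H, iP, iH, fP, fH, hp, hN, hL, ⟨F⟩⟩ := hfr n hn G hG k hk
  obtain ⟨M, hM, hPL⟩ := hpf hp (hA p hp) (hU p hp) hN F hL hC
  obtain ⟨K₀, hK₀, h0⟩ := H38.BG.akn G
  have hcard : 0 < Nat.card G := Nat.card_pos
  have hp0 := hp.pos
  have hm : 0 < Nat.card G * p ^ M * 3 := by positivity
  refine ⟨Nat.card G * p ^ M * 3, hm, Dvd.intro_left _ rfl, K₀, hK₀, fun K hK hz hG' => ?_⟩
  obtain ⟨z, hz⟩ := hz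
  have hz1 : ∃ z : K, IsPrimitiveRoot z (Nat.card G) := ⟨z ^ (p ^ M * 3), hz.pow hm (by ring)⟩
  have hzM : ∃ z : K, IsPrimitiveRoot z (p ^ M) := ⟨z ^ (Nat.card G * 3), hz.pow hm (by ring)⟩
  have hρ : ∃ ρ : Gal(H38.ML.QBar/K) →* G, Function.Surjective ρ ∧ H38.ML.FT ρ := by
    rcases hG' with h | h
    · exact (h0 K h hK).1
    · exact h
  refine ⟨low_k hn hG hp F M hM hPL hρ hz1 hzM, ?_⟩
  rintro ⟨θ, hθ, hr, hRB⟩
  refine asy_k hn hG hp F M hM hPL hρ hz1 hzM θ hθ (hRB H F.Q.ph F.Q.phs F.ker) fun g hg => ?_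
  refine hr g fun h => hg ?_
  rw [← F.ker, MonoidHom.mem_ker] at h
  exact h

/-- the upper bound -/
theorem ht_u (hU : ∀ p : ℕ, p.Prime → APu3 p) (n : ℕ)
    (hn : 2 ≤ n) (G : Subgroup (Equiv.Perm (Fin n))) (hG : MulAction.IsPretransitive G (Fin n))
    (k : ℕ) (hk : Subgroup.closure (Li G) ⊓ (⊤ : Subgroup G).lowerCentralSeries k = ⊥) :
    ∃ m : ℕ, 0 < m ∧ 3 ∣ m ∧
      ∀ K : IntermediateField ℚ (AlgebraicClosure ℚ), ∀ _ : NumberField K,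
      (∃ z : K, IsPrimitiveRoot z m) →
          ((∃ θ : ℝ, 0 ≤ θ ∧
            (∀ g : G, g ∉ Subgroup.closure (Li G) →
              θ * (Spec.indG G : ℝ) < (Spec.ind (g : Equiv.Perm (Fin n)) : ℝ)) ∧
            ∀ (H : Type) [Group H] [Finite H] (ph : G →* H), Function.Surjective ph →
              ph.ker = Subgroup.closure (Li G) → H86.HT.RBt K QBar H θ) →
            ∃ C : ℝ, 0 < C ∧ ∀ B : ℝ, 3 ≤ B → Spec.nK K (AlgebraicClosure ℚ) G B ≤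
              ((⌊C * (B ^ (1 / (Spec.indG G : ℝ)) *
                Real.log B ^ (Spec.betaAll K (AlgebraicClosure ℚ) G - 1))⌋₊ : ℕ) : ℕ∞)) := by
  obtain ⟨p, N, P, H, iP, iH, fP, fH, hp, hN, hL, ⟨F⟩⟩ := hfr n hn G hG k hk
  obtain ⟨M, hM, hPU⟩ := pun3 hp (hU p hp) (H35.NS2.bl2_all hp) (H35.NS2.gp2_all hp) P F.pg
  have hcard : 0 < Nat.card G := Nat.card_pos
  have hp0 := hp.pos
  have hm : 0 < Nat.card G * p ^ M * 3 := by positivity
  refine ⟨Nat.card G * p ^ M * 3, hm, Dvd.intro_left _ rfl, fun K hK hz => ?_⟩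
  obtain ⟨z, hz⟩ := hz
  have hz1 : ∃ z : K, IsPrimitiveRoot z (Nat.card G) := ⟨z ^ (p ^ M * 3), hz.pow hm (by ring)⟩
  have hzM : ∃ z : K, IsPrimitiveRoot z (p ^ M) := ⟨z ^ (Nat.card G * 3), hz.pow hm (by ring)⟩
  rintro ⟨θ, hθ, hr, hRB⟩
  refine upp_k hn hG hp F M hM (hPU N F.Q.cP hN) hz1 hzM θ hθ (hRB H F.Q.ph F.Q.phs F.ker)
    fun g hg => ?_
  refine hr g fun h => hg ?_
  rw [← F.ker, MonoidHom.mem_ker] at h
  exact h

end H51.HC
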