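import Pool.Agent.H51.F3.Pm
import Pool.Agent.H51.TC.Fin

/-!
# H51-HC-DEFS: hypercentral `T` with `T n O^p(G) = 1` (MP_b39724_nt): definitions

`G` a finite group, `T` the normal closure of the classes `cl`, `N` a normal subgroup of `p`-power index with `T n N = 1`, `P = G / N` a `p`-group, `H = G / T`.
* `HX p N G P H`: surjective projections `pr : G → P`, `ph : G → H`, together injective; a subgroup of `G` which maps onto `P` and onto `H` is `G`; corresponding representatives `cl` (in `G`) and `cP` (in `P`); the kernel of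
  `ph` is the normal closure `Tc cl` of the classes.
* `SYH L Q' Q φ₁ Y`: the surjective homomorphisms to `G` which are equal to `φ₁` modulo `ker ph`, of the type of `φ₁` at `S0` up to conjugation by `ker ph`, typed outside `S0`, with the primes of norm product at most `Y`.
* `PPosT p M c T`: the positivity in one type, for every surjective `φ₀` unramified outside `S0`.
* `PLf p M c`: the P-level statements which are used: `PLimT`, `PUb`, `PPosT`.
-/

set_option autoImplicit false

open scoped NumberField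
open IsDedekindDomain H38.ML Filter Topology
open scoped Classical

noncomputable section

namespace H51.HC

open H63.MA H38.BB H38.BG H57.PC H57.BRA H63.BU H77.PC3 H57.CC H38.AS H77.S0T H77.FLD H77.PLF
  H51.PF H51.F3 H12.S3

/-- a group with its projections to a `p`-group `P` and to `G / T` -/
structure HX (p N : ℕ) (G P H : Type) [Group G] [Group P] [Group H] where
  pr : G →* P
  prs : Function.Surjective pr
  ph : G →* H
  phs : Function.Surjective ph
  inj : ∀ x y, pr x = pr y → ph x = ph y → x = y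
  sur : ∀ S : Subgroup G, S.map pr = ⊤ → S.map ph = ⊤ → S = ⊤
  cl : CL p N G
  cP : CL p N P
  hcl : ∀ i, pr (cl.g i) = cP.g i
  hT : ph.ker = Tc cl

section defs

variable {K : Type} [Field K] [NumberField K] {Ω : Type} [Field Ω] [Algebra K Ω]
  {p N : ℕ} {ζ : K} {G P H : Type} [Group G] [Group P] [Group H]

/-- the surjective homomorphisms equal to `φ₁` modulo `ker ph`, of the type of `φ₁` at `S0` -/
def SYH {D : RD0 K p ζ} (L : LDs D Ω) (Q' : DP K Ω) (Q : HX p N G P H)
    (φ₁ : Gal(Ω/K) →* G) (Y : ℝ) : Set (Gal(Ω/K) →* G) :=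
  {φ | φ ∈ SYT L Q' Q.cl Q.ph.ker φ₁ Y ∧ Q.ph.comp φ = Q.ph.comp φ₁}

end defs

/-- the positivity in the type of a surjective homomorphism unramified outside `S0` -/
def PPosT (p M : ℕ) {N : ℕ} {P : Type} [Group P] (c : CL p N P) (T : Subgroup P) : Prop :=
  ∀ (K : IntermediateField ℚ QBar) [NumberField K] (ζ : K) (_ : IsPrimitiveRoot ζ p) (z : K)
    (_ : IsPrimitiveRoot z (p ^ M)) (D : RD K p ζ) (L : LDs D.toRD0 QBar) (Q : DP K QBar)
    (_ : LQ L Q) (φ₀ : Gal(QBar/K) →* P) (_ : H38.ML.FT φ₀) (_ : Function.Surjective φ₀)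
    (_ : ∀ v, v ∉ D.S0 → ∀ τ ∈ inr L v, φ₀ τ = 1),
    ∃ c₀ : ℝ, 0 < c₀ ∧ ∀ᶠ Y : ℝ in atTop,
      c₀ * (Y * Real.log Y ^ (N - 1)) ≤ ((SYT L Q c T φ₀ Y).ncard : ℝ)

/-- the P-level statements -/
structure PLf (p M : ℕ) {N : ℕ} {P : Type} [Group P] (c : CL p N P) : Prop where
  lim : PLimT p M c (Tc c)
  ub : PUb p M c
  pos : PPosT p M c (Tc c)

end H51.HC
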