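import Pool.Agent.H51.HC.Typ
import Pool.Agent.H77.PLF.Gsx

/-!
# [H51 HC XTY] finitely many types

* `hxty`: as `xty` (H77/PLF/Gsx.lean): finitely many typed representatives for the restrictions to the decomposition groups at `S0` together with `ph ∘ φ`. PROOF. `ty_fin` (H77/WD/Tyf.lean) for `P` gives a finite set `Rs` of types of `pr ∘ φ`; `ph ∘ φ` is in the finite set `HB D L H ∅` (`hx_ty`: typed
  implies `ph ∘ φ` unramified). For every pair for which there is such a `φ` choose one; two `φ` with the same pair agree on the decomposition groups by `Q.inj`.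
-/

set_option autoImplicit false

open scoped NumberField
open IsDedekindDomain H38.ML
open scoped Classical

noncomputable section

namespace H51.HC

open H63.MA H38.BB H38.BG H57.PC H57.BRA H63.BU H77.PC3 H57.CC H38.AS H77.S0T H77.FLD H77.PLF
  H51.PF H51.F3

variable {K : Type} [Field K] [NumberField K] {Ω : Type} [Field Ω] [Algebra K Ω]
  [IsAlgClosure K Ω] {p N : ℕ} {ζ : K} {G P H : Type} [Group G] [Group P] [Group H]

theorem hxty [Finite G] (hp : p.Prime) (hp2 : MOne p K) (hζ : IsPrimitiveRoot ζ p)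
    (Q : HX p N G P H) (hP : IsPGroup p P) (D : RD0 K p ζ) (L : LDs D Ω) (Q' : DP K Ω)
    (hB : (H51.TC.HB D L H ∅).Finite) :
    ∃ R₀ : Finset (Gal(Ω/K) →* G),
      (∀ φ ∈ R₀, H38.ML.FT φ ∧ ∀ v, Rm L φ v → ∃ i, TyC Q.cl L φ i v) ∧
      ∀ φ : Gal(Ω/K) →* G, H38.ML.FT φ → (∀ v, Rm L φ v → ∃ i, TyC Q.cl L φ i v) →
        ∃ φ' ∈ R₀, Teq D.S0 Q' φ φ' ∧ Q.ph.comp φ = Q.ph.comp φ' := by
  have : NeZero p := ⟨hp.ne_zero⟩
  have : Finite P := Finite.of_surjective _ Q.prs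
  obtain ⟨Rs, -, hR2⟩ := H77.WD.ty_fin hp hp2 hζ D L Q' _ P rfl hP
  set J : Set ((Gal(Ω/K) →* P) × (Gal(Ω/K) →* H)) := {x | x.1 ∈ Rs ∧ x.2 ∈ hB.toFinset ∧
    ∃ φ : Gal(Ω/K) →* G, H38.ML.FT φ ∧ (∀ v, Rm L φ v → ∃ i, TyC Q.cl L φ i v) ∧
      Teq D.S0 Q' (Q.pr.comp φ) x.1 ∧ Q.ph.comp φ = x.2} with hJ
  have hJf : J.Finite := by
    refine Set.Finite.subset ((Rs ×ˢ hB.toFinset).finite_toSet) fun x hx => ?_
    rw [Finset.mem_coe, Finset.mem_product]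
    exact ⟨hx.1, hx.2.1⟩
  have hch : ∀ x : J, ∃ φ : Gal(Ω/K) →* G, H38.ML.FT φ ∧
      (∀ v, Rm L φ v → ∃ i, TyC Q.cl L φ i v) ∧
      Teq D.S0 Q' (Q.pr.comp φ) x.1.1 ∧ Q.ph.comp φ = x.1.2 := fun x => x.2.2.2
  choose F hF1 hF2 hF3 hF4 using hch
  have hfin : Finite J := hJf
  have hrf : (Set.range F).Finite := Set.finite_range F
  refine ⟨hrf.toFinset, fun φ hφ => ?_, fun φ hφ hty => ?_⟩
  · rw [Set.Finite.mem_toFinset] at hφ
    obtain ⟨x, rfl⟩ := hφ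
    exact ⟨hF1 x, hF2 x⟩
  · obtain ⟨α, hα, h1⟩ := hR2 (Q.pr.comp φ) (H38.ML.ft_comp _ _ hφ)
    have h2 : Q.ph.comp φ ∈ hB.toFinset := by
      rw [Set.Finite.mem_toFinset]
      refine ⟨H38.ML.ft_comp _ _ hφ, fun v hv _ τ hτ => ?_⟩
      by_cases h : ∀ τ ∈ inr L v, φ τ = 1
      · rw [MonoidHom.comp_apply, h τ hτ, map_one]
      · push Not at h
        obtain ⟨i, hi⟩ := hty v ⟨hv, h⟩
        exact ((hx_ty hp hζ Q L φ hφ i v).1 hi).2 τ hτ
    obtain ⟨x, hx⟩ : ∃ x : J, x.1 = (α, Q.ph.comp φ) :=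
      ⟨⟨(α, Q.ph.comp φ), hα, h2, φ, hφ, hty, h1, rfl⟩, rfl⟩
    refine ⟨F x, (Set.Finite.mem_toFinset _).2 ⟨x, rfl⟩, fun v hv σ hσ => ?_, ?_⟩
    · refine Q.inj _ _ ?_ ?_
      · have h3 := h1 v hv σ hσ
        have h4 := hF3 x v hv σ hσ
        rw [hx] at h4
        exact h3.trans h4.symm
      · have h4 := hF4 x
        rw [hx] at h4
        exact (DFunLike.congr_fun h4 σ).symm
    · have h4 := hF4 x
      rw [hx] at h4
      exact h4.symm

end H51.HC
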