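import Pool.Agent.H51.HC.Defs

/-!
# [H51 HC GRP] existence of the projections

`N₀` normal of `p`-power index, `T = normalClosure (range g)`, `N₀ ⊓ T = ⊥`. `N₁` = the smallest normal subgroup with `G ⧸ N₁` a `p`-group (`N₁ ≤ N₀`: the intersection of all; finite), so `N₁ ⊓ T = ⊥`. `pr = mk' N₁`, `ph = mk' T`.
* `sur`: let `S N₁ = G`, `S T = G`. The smallest normal subgroup `S₁` of `S` of `p`-power index: its image in `G ⧸ T` is the smallest normal subgroup of `G ⧸ T` of `p`-power index, which is also the image `N₁ T / T` of `N₁` (in general: `O^p` is generated by the elements of order prime to `p`, so it is compatible with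
  surjective homomorphisms); `S₁ ≤ N₁`; `N₁ → G ⧸ T` is injective, so `S₁ = N₁` and `N₁ ≤ S`, `S = S N₁ = G`. It may be easier to define `N₁` as the subgroup generated by the elements of order prime to `p`: normal, `G ⧸ N₁` is a `p`-group (an element of order `p^a m` is a product of powers), contained in `N₀`; if `x ∈ N₁` has
  order prime to `p`, there is `s ∈ S` with `s = x t`, `t ∈ T`, `x` and `t` commute (`N₁ ⊓ T = ⊥`, both normal), so `s^(p^k) = x^(p^k)` for large `k` (`T` is a `p`-group: it embeds in `G ⧸ N₀`) and `x` is a power of `x^(p^k)`, so `x ∈ S`. No need of `O^p` of `S`.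
* the classes in `G ⧸ N₁`: `pr (g i) ≠ 1` and `pr (g i)`, `pr (g j)` conjugate implies `g i`, `g j` conjugate (`y g_i y⁻¹ = g_j n`, `n ∈ N₁ ⊓ T`).
-/

set_option autoImplicit false

open scoped Classical

noncomputable section

namespace H51.HC

open H63.MA H38.BB H38.BG H57.PC H77.PC3 H57.CC H38.AS H77.FLD H77.PLF H51.PF H51.F3

/-- an element of order prime to `p` is a power of its `p ^ k`-th power -/
private theorem mem_pw {G : Type} [Group G] [Finite G] {p : ℕ} (S : Subgroup G) {x : G} (k : ℕ)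
    (hx : p.Coprime (orderOf x)) (h : x ^ p ^ k ∈ S) : x ∈ S := by
  have h1 : (p ^ k).Coprime (orderOf x) := Nat.Coprime.pow_left k hx
  obtain ⟨m, hm⟩ := exists_pow_eq_self_of_coprime h1
  rw [← hm]
  exact S.pow_mem h m

theorem exists_hx {G : Type} [Group G] [Finite G] {p N : ℕ} (hp : p.Prime) (N₀ : Subgroup G)
    (hN : N₀.Normal) (hN₀ : ∀ x : G, ∃ k : ℕ, x ^ p ^ k ∈ N₀) (g : Fin N → G)
    (pow : ∀ i, g i ^ p = 1) (ne : ∀ i, g i ≠ 1) (uni : ∀ i j, IsConj (g i) (g j) → i = j)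
    (hNT : N₀ ⊓ Subgroup.normalClosure (Set.range g) = ⊥) :
    ∃ (N₁ : Subgroup G) (_ : N₁.Normal)
      (Q : HX p N G (G ⧸ N₁) (G ⧸ Subgroup.normalClosure (Set.range g))),
      IsPGroup p (G ⧸ N₁) ∧ Q.cl.g = g ∧ Q.ph = QuotientGroup.mk' _ := by
  obtain ⟨T, hT⟩ : ∃ T, T = Subgroup.normalClosure (Set.range g) := ⟨_, rfl⟩
  have hTn : T.Normal := by
    rw [hT]
    infer_instance
  have hgT : ∀ i, g i ∈ T := fun i => by
    rw [hT]
    exact Subgroup.subset_normalClosure ⟨i, rfl⟩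
  obtain ⟨N₁, hN₁⟩ : ∃ N₁, N₁ = Subgroup.normalClosure {x : G | p.Coprime (orderOf x)} := ⟨_, rfl⟩
  have hNn : N₁.Normal := by
    rw [hN₁]
    infer_instance
  have hle : N₁ ≤ N₀ := by
    rw [hN₁]
    refine Subgroup.normalClosure_le_normal fun x hx => ?_
    obtain ⟨k, hk⟩ := hN₀ x
    exact mem_pw N₀ k hx hk
  have hdis : N₁ ⊓ T = ⊥ := by
    rw [← hT] at hNT
    exact le_bot_iff.1 ((inf_le_inf_right T hle).trans hNT.le)
  have hone : ∀ x, x ∈ N₁ → x ∈ T → x = 1 := fun x h1 h2 => by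
    have h3 : x ∈ N₁ ⊓ T := ⟨h1, h2⟩
    rw [hdis] at h3
    exact Subgroup.mem_bot.1 h3
  have hTp : ∀ t ∈ T, ∃ k : ℕ, t ^ p ^ k = 1 := fun t ht => by
    obtain ⟨k, hk⟩ := hN₀ t
    refine ⟨k, ?_⟩
    have h3 : t ^ p ^ k ∈ N₀ ⊓ T := ⟨hk, T.pow_mem ht _⟩
    rw [hT, hNT] at h3
    exact Subgroup.mem_bot.1 h3
  have hpg : ∀ x : G, ∃ k : ℕ, x ^ p ^ k ∈ N₁ := fun x => by
    obtain ⟨a, m, hm, hx⟩ := Nat.exists_eq_pow_mul_and_not_dvd (orderOf_pos x).ne' p hp.ne_one
    refine ⟨a, ?_⟩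
    rw [hN₁]
    refine Subgroup.subset_normalClosure ?_
    show p.Coprime (orderOf (x ^ p ^ a))
    have h1 : orderOf (x ^ p ^ a) = m := by
      rw [orderOf_pow, hx, Nat.gcd_eq_right (Dvd.intro m rfl),
        Nat.mul_div_cancel_left m (pow_pos hp.pos a)]
    rw [h1]
    exact (Nat.Prime.coprime_iff_not_dvd hp).2 hm
  have hcm : ∀ x ∈ N₁, ∀ t ∈ T, Commute x t := fun x hx t ht =>
    Subgroup.commute_of_normal_of_disjoint N₁ T hNn hTn (disjoint_iff.2 hdis) x t hx ht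
  have hNS : ∀ S : Subgroup G, S.map (QuotientGroup.mk' T) = ⊤ → N₁ ≤ S := by
    intro S hS
    have h1 : ∀ x : G, p.Coprime (orderOf x) → x ∈ S := by
      intro x hx
      have h2 : QuotientGroup.mk' T x ∈ S.map (QuotientGroup.mk' T) := by
        rw [hS]
        exact Subgroup.mem_top _
      obtain ⟨s, hs, h3⟩ := h2
      have h4 : x⁻¹ * s ∈ T := QuotientGroup.eq.1 h3.symm
      have hxN : x ∈ N₁ := by
        rw [hN₁]
        exact Subgroup.subset_normalClosure hx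
      obtain ⟨k, hk⟩ := hTp _ h4
      refine mem_pw S k hx ?_
      have h5 : s ^ p ^ k = x ^ p ^ k := by
        have h6 : s = x * (x⁻¹ * s) := by rw [mul_inv_cancel_left]
        rw [h6, (hcm x hxN _ h4).mul_pow, hk, mul_one]
      rw [← h5]
      exact S.pow_mem hs _
    rw [hN₁]
    unfold Subgroup.normalClosure
    rw [Subgroup.closure_le]
    intro y hy
    obtain ⟨a, ha, hc⟩ := Group.mem_conjugatesOfSet_iff.1 hy
    obtain ⟨c, rfl⟩ := isConj_iff.1 hc
    refine h1 _ ?_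
    have h2 : orderOf (c * a * c⁻¹) = orderOf a := (MulAut.conj c).orderOf_eq a
    rw [h2]
    exact ha
  subst hT
  refine ⟨N₁, hNn,
    { pr := QuotientGroup.mk' N₁
      prs := QuotientGroup.mk'_surjective N₁
      ph := QuotientGroup.mk' _
      phs := QuotientGroup.mk'_surjective _
      inj := fun x y h1 h2 => ?_
      sur := fun S h1 h2 => ?_
      cl := ⟨g, pow, ne, uni⟩
      cP := ⟨fun i => QuotientGroup.mk' N₁ (g i), fun i => ?_, fun i h => ?_, fun i j h => ?_⟩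
      hcl := fun i => rfl
      hT := QuotientGroup.ker_mk' _ }, fun x => ?_, rfl, rfl⟩
  · have h3 : x⁻¹ * y = 1 := hone _ (QuotientGroup.eq.1 h1) (QuotientGroup.eq.1 h2)
    exact inv_mul_eq_one.1 h3
  · have h3 := hNS S h2
    refine (Subgroup.eq_top_iff' S).2 fun x => ?_
    have h4 : QuotientGroup.mk' N₁ x ∈ S.map (QuotientGroup.mk' N₁) := by
      rw [h1]
      exact Subgroup.mem_top _
    obtain ⟨s, hs, h5⟩ := h4
    have h6 : s⁻¹ * x ∈ N₁ := QuotientGroup.eq.1 h5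
    have h7 := S.mul_mem hs (h3 h6)
    rwa [mul_inv_cancel_left] at h7
  · rw [← map_pow, pow i, map_one]
  · exact ne i (hone _ ((QuotientGroup.eq_one_iff _).1 h) (hgT i))
  · refine uni i j ?_
    obtain ⟨c, hc⟩ := isConj_iff.1 h
    obtain ⟨y, rfl⟩ := QuotientGroup.mk'_surjective N₁ c
    rw [← map_mul, ← map_inv, ← map_mul] at hc
    have h1 : (y * g i * y⁻¹)⁻¹ * g j ∈ N₁ := QuotientGroup.eq.1 hc
    have h2 : (y * g i * y⁻¹)⁻¹ * g j ∈ Subgroup.normalClosure (Set.range g) :=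
      Subgroup.mul_mem _ (Subgroup.inv_mem _ (hTn.conj_mem _ (hgT i) y)) (hgT j)
    exact isConj_iff.2 ⟨y, inv_mul_eq_one.1 (hone _ h1 h2)⟩
  · obtain ⟨y, rfl⟩ := QuotientGroup.mk'_surjective N₁ x
    obtain ⟨k, hk⟩ := hpg y
    refine ⟨k, ?_⟩
    rw [← map_pow]
    exact (QuotientGroup.eq_one_iff _).2 hk

end H51.HC
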