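import Pool.Agent.H51.HC.Syh
import Pool.Agent.H51.PF.Fra

/-!
# [H51 HC LOW] the lower bound, `G / T` arbitrary (as `fin_lo2`, H51/PF/Fra.lean)

PROOF. `ard`: `D` with `φ₀` unramified outside `S0`. `Q'` (`exists_DP`), `L` (`lds_of`, with `LQ L Q'`). By `cfl` it is enough to prove `LBd L Q.cl.g` (H77/PC3/CLo.lean). For large `X` the set `SYT L Q' Q.cP (Tc Q.cP) (pr ∘ φ₀) X` has at least `c₀ X (log X)^(N-1)` elements (`hPo`) and is finite (`pu_fin`, `syt_sub`); by `syh`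
(`φ₁ = φ₀`) so has `SYH L Q' Q φ₀ X`; its elements are as required (as in `pl_pos3`, H51/F3/Pm.lean).
-/

set_option autoImplicit false

open scoped NumberField
open IsDedekindDomain H38.ML Filter Topology
open scoped Classical

noncomputable section

namespace H51.HC

open H63.MA H38.BB H38.BG H57.PC H57.BRA H63.BU H77.PC3 H57.CC H38.AS H77.S0T H77.AB H77.GN
  H77.UX H77.FLD H77.PLF H51.PF H51.F3

variable {n : ℕ} (G : Subgroup (Equiv.Perm (Fin n))) (K : IntermediateField ℚ QBar)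
  [NumberField K]

theorem hlow (hn : 2 ≤ n) (hG : MulAction.IsPretransitive G (Fin n)) {p : ℕ} [NeZero p]
    (hp : p.Prime) (hp2 : MOne p K) {ζ : K} (hζ : IsPrimitiveRoot ζ p) {M : ℕ} {z₂ : K}
    (hz2 : IsPrimitiveRoot z₂ (p ^ M)) {N : ℕ} {P H : Type} [Group P] [Group H]
    (Q : HX p N G P H) (hP : IsPGroup p P) (hPo : PPosT p M Q.cP (Tc Q.cP)) (hU : PUb p M Q.cP)
    (hI : ∀ h : G, (h ≠ 1 ∧ ind (h : Equiv.Perm (Fin n)) = indG G) ↔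
      ∃ i, IsConj h (Q.cl.g i))
    (φ₀ : Gal(QBar/K) →* G) (hs : Function.Surjective φ₀) (hφ₀ : FT φ₀) :
    ∃ c B₀ : ℝ, 0 < c ∧ ∀ B : ℝ, B₀ ≤ B →
      ((⌈c * B ^ (1 / (indG G : ℝ)) * Real.log B ^ (N - 1)⌉₊ : ℕ) : ℕ∞) ≤
        Spec.nK K QBar G B := by
  obtain ⟨ha, -, -, -, -⟩ := pidx_pos hn G hG
  obtain ⟨D, hD, hun⟩ := ard (Ω := QBar) hp hp2 hζ φ₀ hφ₀ (Nat.card G) Nat.card_pos
  obtain ⟨L⟩ := exists_LDs QBar hp hζ D.toRD0
  obtain ⟨Q', hLQ⟩ := H51.AC2.dp_of L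
  have hu : ∀ v, v ∉ D.S0 → ∀ τ ∈ inr L v, φ₀ τ = 1 := fun v hv τ hτ => hun L v hv τ hτ
  refine cfl hn G hG ha K D.toRD0 L Q.cl.g (fun h i hi => ((hI h).2 ⟨i, hi⟩).2) ?_
  obtain ⟨c₀, hc₀, hev⟩ := hPo K ζ hζ z₂ hz2 D L Q' hLQ (Q.pr.comp φ₀) (ft_comp _ _ hφ₀)
    (Q.prs.comp hs) fun v hv τ hτ => by rw [MonoidHom.comp_apply, hu v hv τ hτ, map_one]
  obtain ⟨X₁, hX₁⟩ := eventually_atTop.1 hev
  refine ⟨c₀, max X₁ 3, hc₀, le_max_right _ _, fun X hX => ?_⟩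
  have hsy := syh hp hζ Q hP L Q' φ₀ hφ₀ (Q.phs.comp hs)
    (fun v hv τ hτ => by rw [hu v hv τ hτ, map_one]) X
  have hfin : (SYH L Q' Q φ₀ X).Finite := hsy.2
    ((pu_fin hζ hz2 hU D L X).subset (syt_sub L Q' Q.cP (Tc Q.cP) _ X))
  refine ⟨hfin.toFinset, ?_, fun φ hφ => ?_⟩
  · have h1 := hX₁ X ((le_max_left _ _).trans hX)
    rw [← hsy.1, Set.ncard_eq_toFinset_card _ hfin] at h1
    rw [mul_assoc]
    exact h1
  · rw [Set.Finite.mem_toFinset] at hφ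
    have h1 := syt_sub L Q' Q.cl Q.ph.ker φ₀ X hφ.1
    -- on the inertia groups outside `S0` the orders are powers of `p`
    have hpI : ∀ v, v ∉ D.S0 → ∀ τ ∈ inr L v, ∃ k : ℕ, φ τ ^ (p ^ k) = 1 := by
      intro v hv τ hτ
      obtain ⟨k, hk⟩ := hP (Q.pr (φ τ))
      refine ⟨k, Q.inj _ _ (by rw [map_pow, hk, map_one]) ?_⟩
      have h2 : Q.ph (φ τ) = 1 := by
        have h3 := DFunLike.congr_fun hφ.2 τ
        rw [MonoidHom.comp_apply, MonoidHom.comp_apply, hu v hv τ hτ, map_one] at h3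
        exact h3
      rw [map_pow, h2, one_pow, map_one]
    refine ⟨h1.1, h1.2.1, H35.AC.nfs L ∅ φ, fun v hv => ((H35.AC.mem_nfs h1 v).1 hv).1, ?_,
      fun v hv => ?_, fun v hv hv2 => ?_⟩
    · have h2 := H35.AC.nfs_AF h1
      rw [mem_AF] at h2
      exact h2
    · obtain ⟨h2, h3, h4⟩ := (H35.AC.mem_nfs h1 v).1 hv
      rcases h1.2.2.1 v h2 h3 with h5 | ⟨i, hi⟩
      · exact absurd (h5 _ (H35.AC.lt_mem L h2)) h4
      · exact ⟨i, φ (L.t v), hi.2.1, (H48.MF.ing_inr hp hζ L h2 φ h1.1 (hpI v h2)).1⟩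
    · have h2 : φ (L.t v) = 1 := by
        by_contra h3
        exact hv2 ((H35.AC.mem_nfs h1 v).2 ⟨hv, Finset.notMem_empty v, h3⟩)
      exact (H48.MF.ing_inr hp hζ L hv φ h1.1 (hpI v hv)).2.2 h2

end H51.HC
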