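import Pool.Agent.H51.HC.Defs

/-!
# H51-HC-PF: the P-level statements `PLf` (MP_b39724_nt)

* `plf_of`: `PLf` from `PLimT`, `PUb` and the positivity for normalised places. `plf3`: from stage 3 (`APm3`, `APu3`; the condition `C4`). `plfs`: from stage 2 (full series).
-/

set_option autoImplicit false

open scoped NumberField
open IsDedekindDomain H38.ML Filter Topology
open scoped Classical

noncomputable section

namespace H51.HC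

open H38.ML H63.MA H38.BB H38.BG H57.PC H57.BRA H57.CC H38.AS H77.WD H77.WE H77.PC3 H77.S0T H77.FLD
  H77.PLF H35.UB H35.AC H51.PF H51.AC2 H51.F3 H24.RK H12.S3

/-- the positivity of `PPosT`, for the type of a surjective `φ₀`, from places normalised by `z` -/
theorem ppost_of {p : ℕ} (hp : p.Prime) (n M : ℕ) (hM : n + 1 ≤ M) {P : Type} [Group P] [Finite P] {N : ℕ}
    (c : CL p N P) (T : Subgroup P)
    (h : ∀ (K : IntermediateField ℚ QBar) [NumberField K] (ζ : K) (_ : IsPrimitiveRoot ζ p) (z : K)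
      (_ : IsPrimitiveRoot z (p ^ (n + 1))) (_ : z ^ p ^ n = ζ) (D : RD K p ζ)
      (L : LDs D.toRD0 QBar) (_ : NL (n + 1) z L) (Q : DP K QBar) (_ : LQ L Q)
      (φ₀ : Gal(QBar/K) →* P), FT φ₀ → Function.Surjective φ₀ →
      (∀ v, v ∉ D.S0 → ∀ τ ∈ inr L v, φ₀ τ = 1) →
      ∃ c₀ : ℝ, 0 < c₀ ∧ ∀ᶠ Y : ℝ in atTop,
        c₀ * (Y * Real.log Y ^ (N - 1)) ≤ ((SYT L Q c T φ₀ Y).ncard : ℝ)) :
    PPosT p M c T := by
  have : NeZero p := ⟨hp.ne_zero⟩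
  intro K _ ζ hζ z hz D L Q hLQ φ₀ h₀ hs hun
  obtain ⟨zA, hzA⟩ := H51.AC2.prm_pow hp hz hM
  obtain ⟨z', hz', hz2⟩ := zn_norm hp hζ hzA
  obtain ⟨L', hL', hLL⟩ := nl_exists (Ω := QBar) hp hz' hζ hz2 L
  have hLP : ∀ v hv, (L'.ld v hv).P = (L.ld v hv).P := fun v hv => (hLL v hv).1
  obtain ⟨c₀, hc₀, h1⟩ := h K ζ hζ z' hz' hz2 D L' hL' Q (trn_lq hLP hLQ) φ₀ h₀ hs
    (fun v hv τ hτ => hun v hv τ (by rw [← trn_in hLP v hv]; exact hτ))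
  refine ⟨c₀, hc₀, ?_⟩
  filter_upwards [h1] with Y hY
  rw [← trn_syt hp hζ hLP Q c T φ₀ Y]
  exact hY

/-- more roots of unity -/
theorem plim_mono {p : ℕ} (hp : p.Prime) {M M' : ℕ} (h : M ≤ M') {P : Type} [Group P] {N : ℕ}
    {c : CL p N P} {T : Subgroup P} (hL : PLimT p M c T) : PLimT p M' c T := by
  intro K _ ζ hζ z hz
  obtain ⟨z', hz'⟩ := H51.AC2.prm_pow hp hz h
  exact hL K ζ hζ z' hz'

theorem pub_mono {p : ℕ} (hp : p.Prime) {M M' : ℕ} (h : M ≤ M') {P : Type} [Group P] {N : ℕ}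
    {c : CL p N P} (hL : PUb p M c) : PUb p M' c := by
  intro K _ ζ hζ z hz
  obtain ⟨z', hz'⟩ := H51.AC2.prm_pow hp hz h
  exact hL K ζ hζ z' hz'

/-- the P-level statements from stage 3 -/
theorem plf3 {p : ℕ} (hp : p.Prime) (hA : APm3 p) (hU : APu3 p) (hB : BL2 p) (hG : GP2 p)
    (P : Type) [Group P] [Finite P] (hPg : IsPGroup p P) :
    ∃ M : ℕ, 2 ≤ M ∧ ∀ (N : ℕ) (c : CL p N P) (_ : 1 ≤ N) (_ : C4 c), PLf p M c := by
  obtain ⟨M₁, hM₁, h₁⟩ := plc3 hp hA hU hB hG P hPg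
  obtain ⟨n, hn⟩ := hA P hPg
  refine ⟨M₁ + n + 1, by omega, fun N c hN hC => ?_⟩
  obtain ⟨a1, a2, -⟩ := h₁ N c hN hC
  refine ⟨plim_mono hp (by omega) a1, pub_mono hp (by omega) a2,
    ppost_of hp n _ (by omega) c (Tc c) ?_⟩
  intro K _ ζ hζ z hz hz2 D L hL Q hLQ φ₀ h₀ hs hun
  exact (hn N c hN hC K ζ hζ z hz hz2 D).2 L hL Q hLQ φ₀ h₀ hs hun

/-- the P-level statements from stage 2 (full series) -/
theorem plfs {p : ℕ} (hp : p.Prime) (hA : APst2 p) (hB : BL2 p) (hG : GP2 p)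
    (P : Type) [Group P] [Finite P] (hPg : IsPGroup p P) :
    ∃ M : ℕ, 2 ≤ M ∧ ∀ (N : ℕ) (c : CL p N P) (_ : 1 ≤ N) (_ : Ser c (Tc c)), PLf p M c := by
  obtain ⟨M₁, hM₁, h₁⟩ := plvT hp hA hB hG P hPg
  obtain ⟨n, hn⟩ := hA P hPg
  have hcT : ∀ {N : ℕ} (c : CL p N P) (i : Fin N), c.g i ∈ Tc c := fun c i =>
    Subgroup.subset_normalClosure ⟨i, rfl⟩
  refine ⟨M₁ + n + 1, by omega, fun N c hN hC => ?_⟩
  obtain ⟨a1, a2, -⟩ := h₁ N c (Tc c) hN (hcT c) hC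
  refine ⟨plim_mono hp (by omega) a1, pub_mono hp (by omega) a2,
    ppost_of hp n _ (by omega) c (Tc c) ?_⟩
  intro K _ ζ hζ z hz hz2 D L hL Q hLQ φ₀ h₀ hs hun
  obtain ⟨-, ⟨M, ε, h2⟩, -⟩ := hn N c (Tc c) hN (hcT c) hC K ζ hζ z hz hz2 D
  obtain ⟨c₀, hc₀, h3⟩ := h2 L hL Q hLQ φ₀ h₀ hs hun
  refine ⟨c₀, hc₀, ?_⟩
  filter_upwards [h3, eventually_ge_atTop (1 : ℝ)] with Y hY hY1
  refine hY.trans ?_
  obtain ⟨_, _, -, -, htr⟩ := trv hp hζ hPg L c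
  have hfin := (htr ∅ Y hY1).1.subset (syt_sub L Q c (Tc c) φ₀ Y)
  have h4 : {φ | φ ∈ SYT L Q c (Tc c) φ₀ Y ∧ Rch L c ∅ M ε Y φ} ⊆ SYT L Q c (Tc c) φ₀ Y :=
    fun φ hφ => hφ.1
  exact_mod_cast Set.ncard_le_ncard h4 hfin

end H51.HC
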