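import Pool.Agent.H51.HC.Lim
import Pool.Agent.H51.HC.Low
import Pool.Agent.H51.HC.Grp
import Pool.Agent.H51.HC.Pf
import Pool.Agent.H51.F3.Fld

/-!
# H51-HC-FLD: fields over one `K`, hypercentral `T` (MP_b39724_nt)

* `HF`: the frame: projections `Q : HX p N G P H` with `ker ph` = the subgroup generated by the elements of least index, the classes `Q.cl` the classes of least index. `hfrm`: existence.
* `hf_tc`: `Tc Q.cP` is the image of the subgroup generated by the elements of least index.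
* `low_k`: the lower bound over one `K`, `G / T` arbitrary. `asy_k`: the asymptotic formula. `upp_k`: the upper bound.
-/

set_option autoImplicit false

open scoped NumberField
open IsDedekindDomain Filter Topology H38.ML
open scoped Classical

noncomputable section

namespace H51.HC

open H63.MA H38.BB H38.BG H57.PC H57.BRA H63.BU H77.PC3 H57.CC H38.AS H77.S0T H77.AB H77.GN
  H77.UX H77.FLD H77.PLF H51.PF H51.NS H51.F3 H12.S3

/-- the frame -/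
structure HF {n : ℕ} (G : Subgroup (Equiv.Perm (Fin n))) (p N : ℕ) (P H : Type) [Group P]
    [Group H] where
  Q : HX p N G P H
  pg : IsPGroup p P
  ker : Q.ph.ker = Subgroup.closure (Li G)
  cls : ∀ h : G, (h ≠ 1 ∧ ind (h : Equiv.Perm (Fin n)) = indG G) ↔ ∃ i, IsConj h (Q.cl.g i)

theorem hfrm (n : ℕ) (hn : 2 ≤ n) (G : Subgroup (Equiv.Perm (Fin n)))
    (hG : MulAction.IsPretransitive G (Fin n)) {p : ℕ} (hp : p.Prime) (hL : ∀ h ∈ Li G, h ^ p = 1)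
    (N₀ : Subgroup G) (hN : N₀.Normal) (hN₀ : ∀ x : G, ∃ k : ℕ, x ^ p ^ k ∈ N₀)
    (hNT : N₀ ⊓ Subgroup.closure (Li G) = ⊥) :
    ∃ (N : ℕ) (P H : Type) (_ : Group P) (_ : Group H) (_ : Finite P) (_ : Finite H),
      1 ≤ N ∧ Nonempty (HF G p N P H) := by
  have : Fact p.Prime := ⟨hp⟩
  obtain ⟨ha, ⟨g₀, hg₀, hg₀'⟩, hmin, hcj, hJ⟩ := pidx_pos hn G hG
  obtain ⟨N, g, hgΛ, uni, hI'⟩ := ncl G {h : G | h ≠ 1 ∧ ind (h : Equiv.Perm (Fin n)) = indG G}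
    (fun h hh => hh.1) (by
      rintro h ⟨h1, h2⟩ k hk
      refine ⟨?_, ?_⟩
      · intro hk1
        rw [hk1] at hk
        exact h1 (isConj_one_left.1 hk)
      · obtain ⟨x, rfl⟩ := isConj_iff.1 hk
        exact hcj h x h1 h2)
  have hcl : Subgroup.closure (Li G) = Subgroup.normalClosure (Set.range g) := by
    unfold Subgroup.normalClosure
    congr 1
    ext h
    rw [Group.mem_conjugatesOfSet_iff]
    constructor
    · intro hh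
      obtain ⟨i, hi⟩ := (hI' h).1 hh
      exact ⟨g i, ⟨i, rfl⟩, hi.symm⟩
    · rintro ⟨_, ⟨i, rfl⟩, hi⟩
      exact (hI' h).2 ⟨i, hi.symm⟩
  obtain ⟨N₁, hN₁, Q, hP, hQ, hph⟩ := exists_hx hp N₀ hN hN₀ g (fun i => hL _ (hgΛ i))
    (fun i => (hgΛ i).1) uni (by rw [← hcl]; exact hNT)
  refine ⟨N, G ⧸ N₁, G ⧸ Subgroup.normalClosure (Set.range g), inferInstance, inferInstance,
    inferInstance, inferInstance, ?_, ⟨⟨Q, hP, ?_, fun h => ?_⟩⟩⟩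
  · obtain ⟨i, -⟩ := (hI' g₀).1 ⟨hg₀, hg₀'⟩
    exact Nat.one_le_iff_ne_zero.2 fun h => by
      subst h
      exact i.elim0
  · rw [hph, QuotientGroup.ker_mk', hcl]
  · rw [hQ]
    exact hI' h

section one

variable {n p N : ℕ} {G : Subgroup (Equiv.Perm (Fin n))} {P H : Type} [Group P] [Group H]

theorem hf_tc (F : HF G p N P H) :
    Tc F.Q.cP = (Subgroup.closure (Li G)).map F.Q.pr := by
  rw [← hx_tc, F.ker]

variable {K : IntermediateField ℚ (AlgebraicClosure ℚ)} [hKf : NumberField K]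

/-- the number of classes -/
theorem hf_bet (F : HF G p N P H) (hz : ∃ z : K, IsPrimitiveRoot z (Nat.card G)) :
    Spec.betaAll K QBar G = N := by
  obtain ⟨z, hz⟩ := hz
  exact lbet G K z hz F.Q.cl.g F.Q.cl.uni F.cls

theorem low_k (hn : 2 ≤ n) (hG : MulAction.IsPretransitive G (Fin n)) (hp : p.Prime)
    (F : HF G p N P H) (M : ℕ) (hM : 2 ≤ M) (hPL : PLf p M F.Q.cP)
    (hρ : ∃ ρ : Gal(QBar/K) →* G, Function.Surjective ρ ∧ FT ρ)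
    (hz : ∃ z : K, IsPrimitiveRoot z (Nat.card G)) (hz₂ : ∃ z : K, IsPrimitiveRoot z (p ^ M)) :
    ∃ c B₀ : ℝ, 0 < c ∧ ∀ B : ℝ, B₀ ≤ B →
      ((⌈c * B ^ (1 / (Spec.indG G : ℝ)) *
        Real.log B ^ (Spec.betaAll K QBar G - 1)⌉₊ : ℕ) : ℕ∞) ≤ Spec.nK K QBar G B := by
  have : NeZero p := ⟨hp.ne_zero⟩
  have : Fact p.Prime := ⟨hp⟩
  obtain ⟨z₂, hz2⟩ := hz₂
  have hp2 : MOne p K := mone_of hp hM hz2
  obtain ⟨φ₀, hs, hφ₀⟩ := hρ
  obtain ⟨ζ, hζ⟩ : ∃ ζ : K, IsPrimitiveRoot ζ p := by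
    refine ⟨z₂ ^ p ^ (M - 1), hz2.pow (pow_pos hp.pos _) ?_⟩
    rw [← pow_succ]
    congr 1
    omega
  rw [hf_bet F hz]
  exact hlow G K hn hG hp hp2 hζ hz2 F.Q F.pg hPL.pos hPL.ub F.cls φ₀ hs hφ₀

/-- the asymptotic formula over one `K` -/
theorem asy_k (hn : 2 ≤ n) (hG : MulAction.IsPretransitive G (Fin n)) (hp : p.Prime)
    (F : HF G p N P H) (M : ℕ) (hM : 2 ≤ M) (hPL : PLf p M F.Q.cP)
    (hρ : ∃ ρ : Gal(QBar/K) →* G, Function.Surjective ρ ∧ FT ρ)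
    (hz : ∃ z : K, IsPrimitiveRoot z (Nat.card G)) (hz₂ : ∃ z : K, IsPrimitiveRoot z (p ^ M))
    (θ : ℝ) (hθ : 0 ≤ θ) (hRB : H86.HT.RBt K QBar H θ)
    (hr : ∀ g : G, F.Q.ph g ≠ 1 → θ * (indG G : ℝ) < (ind (g : Equiv.Perm (Fin n)) : ℝ)) :
    Asy G K := by
  have : NeZero p := ⟨hp.ne_zero⟩
  have : Fact p.Prime := ⟨hp⟩
  obtain ⟨c₁, B₀, hc₁, hlo⟩ := low_k hn hG hp F M hM hPL hρ hz hz₂
  obtain ⟨z₂, hz2⟩ := hz₂
  have hp2 : MOne p K := mone_of hp hM hz2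
  obtain ⟨ζ, hζ⟩ : ∃ ζ : K, IsPrimitiveRoot ζ p := by
    refine ⟨z₂ ^ p ^ (M - 1), hz2.pow (pow_pos hp.pos _) ?_⟩
    rw [← pow_succ]
    congr 1
    omega
  obtain ⟨c₀, hc₀, hnk⟩ := nk2 G hG
  have i₀ : Fin n := ⟨0, by omega⟩
  obtain ⟨hfin, c, hcl⟩ := hlim G K hn hG hp hp2 hζ hz2 F.Q F.pg hPL.ub hPL.lim θ hθ hRB hr F.cls i₀
  have hβ := hf_bet F hz
  have hk : ∀ B : ℝ, ∃ k : ℕ, Spec.nK K QBar G B = (k : ℕ∞) ∧
      k * c₀ = (CfinS G K i₀ B).ncard := fun B => hnk K hKf i₀ B (hfin B)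
  choose k hk1 hk2 using hk
  have hc₀R : (0 : ℝ) < (c₀ : ℝ) := by exact_mod_cast hc₀
  have hlim : Tendsto (fun B : ℝ => (k B : ℝ) /
        (B ^ (1 / (Spec.indG G : ℝ)) * Real.log B ^ (Spec.betaAll K QBar G - 1)))
        atTop (𝓝 (c / (c₀ : ℝ))) := by
    refine (hcl.div_const (c₀ : ℝ)).congr fun B => ?_
    rw [← hk2 B, hβ]
    push_cast
    have : H38.ML.indG G = Spec.indG G := rfl
    rw [this]
    field_simp
  refine ⟨c / (c₀ : ℝ), ?_, k, hk1, hlim⟩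
  refine lt_of_lt_of_le hc₁ (ge_of_tendsto hlim ?_)
  filter_upwards [eventually_ge_atTop B₀, eventually_gt_atTop 1] with B hB hB1
  have h1 := hlo B hB
  rw [show Spec.nK K (AlgebraicClosure ℚ) G B = (k B : ℕ∞) from hk1 B] at h1
  rw [hβ] at h1 ⊢
  have h2 : (⌈c₁ * B ^ (1 / (indG G : ℝ)) * Real.log B ^ (N - 1)⌉₊ : ℕ) ≤ k B := by
    exact_mod_cast h1
  have h3 : c₁ * B ^ (1 / (indG G : ℝ)) * Real.log B ^ (N - 1) ≤ (k B : ℝ) :=
    (Nat.le_ceil _).trans (by exact_mod_cast h2)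
  have hP : 0 < B ^ (1 / (Spec.indG G : ℝ)) * Real.log B ^ (N - 1) :=
    mul_pos (Real.rpow_pos_of_pos (by linarith) _) (pow_pos (Real.log_pos hB1) _)
  rw [le_div_iff₀ hP, ← mul_assoc]
  exact h3

/-- the upper bound over one `K` -/
theorem upp_k (hn : 2 ≤ n) (hG : MulAction.IsPretransitive G (Fin n)) (hp : p.Prime)
    (F : HF G p N P H) (M : ℕ) (hM : 2 ≤ M) (hU : PUb p M F.Q.cP)
    (hz : ∃ z : K, IsPrimitiveRoot z (Nat.card G)) (hz₂ : ∃ z : K, IsPrimitiveRoot z (p ^ M))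
    (θ : ℝ) (hθ : 0 ≤ θ) (hRB : H86.HT.RBt K QBar H θ)
    (hr : ∀ g : G, F.Q.ph g ≠ 1 → θ * (indG G : ℝ) < (ind (g : Equiv.Perm (Fin n)) : ℝ)) :
    ∃ C : ℝ, 0 < C ∧ ∀ B : ℝ, 3 ≤ B → Spec.nK K QBar G B ≤
      ((⌊C * (B ^ (1 / (Spec.indG G : ℝ)) *
        Real.log B ^ (Spec.betaAll K QBar G - 1))⌋₊ : ℕ) : ℕ∞) := by
  have : NeZero p := ⟨hp.ne_zero⟩
  have : Fact p.Prime := ⟨hp⟩
  obtain ⟨z₂, hz2⟩ := hz₂
  have hp2 : MOne p K := mone_of hp hM hz2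
  obtain ⟨ζ, hζ⟩ : ∃ ζ : K, IsPrimitiveRoot ζ p := by
    refine ⟨z₂ ^ p ^ (M - 1), hz2.pow (pow_pos hp.pos _) ?_⟩
    rw [← pow_succ]
    congr 1
    omega
  obtain ⟨c₀, hc₀, hnk⟩ := nk2 G hG
  have i₀ : Fin n := ⟨0, by omega⟩
  obtain ⟨hfin, C, hC, hcl⟩ := hup G K hn hG hp hp2 hζ hz2 F.Q F.pg hU θ hθ hRB hr F.cls i₀
  have hβ := hf_bet F hz
  refine ⟨C, hC, fun B hB => ?_⟩
  obtain ⟨k, hk1, hk2⟩ := hnk K hKf i₀ B (hfin B)
  rw [show Spec.nK K QBar G B = (k : ℕ∞) from hk1, hβ]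
  refine Nat.cast_le.2 (Nat.le_floor (le_trans ?_ (hcl B hB)))
  have h1 : k ≤ (CfinS G K i₀ B).ncard := by
    rw [show (CfinS G K i₀ B).ncard = k * c₀ from hk2.symm]
    exact Nat.le_mul_of_pos_right _ hc₀
  exact_mod_cast h1

end one

end H51.HC
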