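import Pool.Agent.H51.HC.Typ
import Pool.Agent.H77.PLF.Gux
import Pool.Agent.H51.TC.Gue

/-!
# [H51 HC HUX] domination, with the counting hypothesis `RBL` for `H` instead of nilpotency (as `gux`, H77/PLF/Gux.lean, and `gue`, H51/TC/Gue.lean)

PROOF. Let `φ ∈ Rs` with set `E` of the untyped ramified primes. `A` = the `v ∈ E` with `nm v` prime or `ph ∘ φ` ramified at `v`, `A ∈ Aw E`. `β = ph ∘ φ ∈ HB D L H A` (typed primes: `hx_ty`). `pr ∘ φ ∈ PU L Q.cP E (UA B a A E)`: the typed primes `f` satisfy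
`∏_(v ∈ f) nm v ^ a ∏_(v ∈ A) nm v ^ (a + 1) ∏_(v ∈ E \ A) nm v ^ a ≤ B` (from the bound with `T = f ∪ E`; for `v ∈ A` with `nm v` prime as in `ccnt_nr`; for `v ∈ A` with `ph ∘ φ` ramified: the image of inertia is cyclic (`uinr_cyc`, `hS`), generated by some `g ≠ 1`; if `ix ≤ a` then `g` is conjugate to
some `Q.cl.g i`, in `ker ph`). For given `A`, `β` the map `φ ↦ pr ∘ φ` is injective (`Q.inj`), so there are at most `C₂ (nr E)^η UA (1 + log UA)^(N-1)` such `φ` (`PUb`). Sum over `A ∈ Aw E`, `β ∈ HB D L H A` (finite: `hb_fin`), and `wts` (H51/TC/Wts.lean) with `η = 1/(4a)`, `q = 1`.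
-/

set_option autoImplicit false

open scoped NumberField
open IsDedekindDomain H38.ML
open scoped Classical

noncomputable section

namespace H51.HC

open H63.MA H38.BB H38.BG H57.PC H57.BRA H63.BU H77.PC3 H57.CC H38.AS H77.S0T H77.FLD H77.PLF
  H51.PF H51.F3

/-- the size of the parameters -/
theorem hux_cnr {K : Type} [Field K] [NumberField K] {Ω : Type} [Field Ω] [Algebra K Ω]
    [IsAlgClosure K Ω] {p : ℕ} {ζ : K} {N : ℕ} {G P H : Type} [Group G] [Finite G] [Group P]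
    [Group H] (hp : p.Prime) (hζ : IsPrimitiveRoot ζ p) (D : RD0 K p ζ) (L : LDs D Ω)
    (Q : HX p N G P H)
    (hS : ∀ v : Pl K, ((Nat.card G : ℕ) : 𝓞 K) ∈ v.asIdeal → v ∈ D.S0) (a : ℕ) (ha : 0 < a)
    (ix : Subgroup G → ℕ) (h1 : ∀ H, H ≠ ⊥ → a ≤ ix H)
    (h2 : ∀ g : G, g ≠ 1 → ix (Subgroup.zpowers g) ≤ a → ∃ i, IsConj g (Q.cl.g i))
    (φ : Gal(Ω/K) →* G) (hφ : H38.ML.FT φ) (B : ℝ)
    (hB : ∀ T : Finset (Pl K), (∀ v ∈ T, v ∉ D.S0) →
      ∏ v ∈ T, (nm v : ℝ) ^ ix ((inr L v).map φ) ≤ B)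
    (f : Fin N → Finset (Pl K)) (E : Finset (Pl K)) (hf : ∀ i v, v ∈ f i ↔ TyC Q.cl L φ i v)
    (hE : ∀ v, v ∈ E ↔ Rm L φ v ∧ ∀ i, ¬ TyC Q.cl L φ i v) (A : Finset (Pl K))
    (hA : A = E.filter fun v => (nm v).Prime ∨ Rm L (Q.ph.comp φ) v) :
    ∏ i, nr (f i) ≤ H51.TC.UA B a A E ∧ Dj f ∧ 1 ≤ H51.TC.UA B a A E ∧
      A ∈ H51.TC.Aw E ∧ Q.ph.comp φ ∈ H51.TC.HB D L H A := by
  have h0 : ∀ v : Pl K, (1 : ℝ) ≤ (nm v : ℝ) := fun v => by
    exact_mod_cast (one_lt_nm v).le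
  have haR : (0 : ℝ) < (a : ℝ) := by exact_mod_cast ha
  have hdj : Dj f := by
    intro i j hij
    rw [Finset.disjoint_left]
    intro v hv hv'
    exact hij (clead_uni L Q.cl φ i j v ((hf i v).1 hv) ((hf j v).1 hv'))
  have hdE : ∀ i, Disjoint (f i) E := by
    intro i
    rw [Finset.disjoint_left]
    intro v hv hv'
    exact ((hE v).1 hv').2 i ((hf i v).1 hv)
  have hAE : A ⊆ E := by
    rw [hA]
    exact Finset.filter_subset _ _
  have hAw : A ∈ H51.TC.Aw E := by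
    refine Finset.mem_filter.2 ⟨Finset.mem_powerset.2 hAE, fun v hv hpr => ?_⟩
    obtain ⟨h3, h4⟩ := Finset.mem_sdiff.1 hv
    apply h4
    rw [hA]
    exact Finset.mem_filter.2 ⟨h3, Or.inl hpr⟩
  have hHB : Q.ph.comp φ ∈ H51.TC.HB D L H A := by
    refine ⟨ft_comp _ _ hφ, fun v hvS hvA τ hτ => ?_⟩
    by_contra hne
    have hR : Rm L (Q.ph.comp φ) v := ⟨hvS, τ, hτ, hne⟩
    have hR' : Rm L φ v := ⟨hvS, τ, hτ, fun h => hne (by rw [MonoidHom.comp_apply, h, map_one])⟩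
    by_cases hty : ∃ i, TyC Q.cl L φ i v
    · obtain ⟨i, hi⟩ := hty
      exact hne (((hx_ty hp hζ Q L φ hφ i v).1 hi).2 τ hτ)
    · push Not at hty
      apply hvA
      rw [hA]
      exact Finset.mem_filter.2 ⟨(hE v).2 ⟨hR', hty⟩, Or.inr hR⟩
  have hEi : Disjoint E (Finset.univ.biUnion f) := by
    rw [Finset.disjoint_biUnion_right]
    exact fun i _ => (hdE i).symm
  have hT : ∀ v ∈ E ∪ Finset.univ.biUnion f, v ∉ D.S0 := by
    intro v hv
    rcases Finset.mem_union.1 hv with h | h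
    · exact ((hE v).1 h).1.1
    · obtain ⟨i, -, hi⟩ := Finset.mem_biUnion.1 h
      exact ((hf i v).1 hi).1.1
  have hprod := hB _ hT
  rw [Finset.prod_union hEi, Finset.prod_biUnion (fun i _ j _ hij => hdj i j hij)] at hprod
  have hne : ∀ v, Rm L φ v → (inr L v).map φ ≠ ⊥ := by
    rintro v ⟨-, τ, hτ, hτ1⟩ h
    have h3 : φ τ ∈ (inr L v).map φ := Subgroup.mem_map_of_mem φ hτ
    rw [h] at h3
    exact hτ1 (Subgroup.mem_bot.1 h3)
  have hlead : ∀ v ∈ A, a + 1 ≤ ix ((inr L v).map φ) := by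
    intro v hv
    rw [hA] at hv
    obtain ⟨hvE, hv2⟩ := Finset.mem_filter.1 hv
    obtain ⟨hvR, hvT⟩ := (hE v).1 hvE
    rcases hv2 with hpr | hR
    · rcases clead hp hζ L Q.cl hS a ix h1 h2 φ hφ v hvR with ⟨i, hi⟩ | h
      · exact absurd hi (hvT i)
      · unfold co at h
        rw [if_pos hpr] at h
        exact h
    · by_contra hcon
      push Not at hcon
      obtain ⟨τ, hτ, hg⟩ := uinr_gen L (Nat.card G) hS rfl φ hφ v
      have hτ1 : φ τ ≠ 1 := by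
        intro h
        apply hne v hvR
        rw [hg, h]
        exact Subgroup.zpowers_one_eq_bot
      obtain ⟨i, hi⟩ := h2 (φ τ) hτ1 (by rw [← hg]; omega)
      have hk : φ τ ∈ Q.ph.ker := by
        obtain ⟨c, hc⟩ := isConj_iff.1 hi.symm
        rw [← hc, MonoidHom.mem_ker, map_mul, map_mul, hx_cl, mul_one, map_inv, mul_inv_cancel]
      obtain ⟨-, σ, hσ, hσ1⟩ := hR
      apply hσ1
      have h3 : φ σ ∈ (inr L v).map φ := Subgroup.mem_map_of_mem φ hσ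
      rw [hg] at h3
      have h4 : Subgroup.zpowers (φ τ) ≤ Q.ph.ker := by
        rw [Subgroup.zpowers_le]
        exact hk
      exact MonoidHom.mem_ker.1 (h4 h3)
  have hQ1 : H51.TC.QA a A E ≤ ∏ v ∈ E, (nm v : ℝ) ^ ix ((inr L v).map φ) := by
    rw [← Finset.prod_sdiff hAE, mul_comm]
    unfold H51.TC.QA
    refine mul_le_mul ?_ ?_ (Finset.prod_nonneg fun v _ => by have := h0 v; positivity)
      (Finset.prod_nonneg fun v _ => by have := h0 v; positivity)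
    · refine Finset.prod_le_prod (fun v _ => by have := h0 v; positivity) fun v hv => ?_
      exact pow_le_pow_right₀ (h0 v) (hlead v hv)
    · refine Finset.prod_le_prod (fun v _ => by have := h0 v; positivity) fun v hv => ?_
      exact pow_le_pow_right₀ (h0 v)
        (h1 _ (hne v ((hE v).1 (Finset.mem_sdiff.1 hv).1).1))
  have hP1 : (∏ i, nr (f i)) ^ a ≤ ∏ i, ∏ v ∈ f i, (nm v : ℝ) ^ ix ((inr L v).map φ) := by
    rw [← Finset.prod_pow]
    refine Finset.prod_le_prod (fun i _ => pow_nonneg (by linarith [one_le_nr (f i)]) _)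
      fun i _ => ?_
    unfold nr
    rw [← Finset.prod_pow]
    refine Finset.prod_le_prod (fun v _ => by have := h0 v; positivity) fun v hv => ?_
    exact pow_le_pow_right₀ (h0 v) (h1 _ (clead_ty L Q.cl φ i v ((hf i v).1 hv)).2)
  obtain ⟨X, hX⟩ : ∃ X : ℝ, X = ∏ i, nr (f i) := ⟨_, rfl⟩
  have hXone : 1 ≤ X := by
    rw [hX]
    exact atupa_prod_one f Finset.univ
  have hQ0 := H51.TC.QA_pos a A E
  have hQP : H51.TC.QA a A E * X ^ a ≤ B := by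
    refine le_trans ?_ hprod
    rw [hX]
    refine mul_le_mul hQ1 hP1 (by rw [← hX]; positivity) ?_
    exact Finset.prod_nonneg fun v _ => by have := h0 v; positivity
  have hB0 : 0 < B := lt_of_lt_of_le (by positivity) hQP
  have hUA : H51.TC.UA B a A E = (B / H51.TC.QA a A E) ^ (1 / (a : ℝ)) :=
    H51.TC.ua_eq B hB0.le a ha A E
  have hPU : X ≤ H51.TC.UA B a A E := by
    rw [hUA]
    have h3 : X ^ a ≤ B / H51.TC.QA a A E := by
      rw [le_div_iff₀ hQ0]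
      linarith
    have h4 : X = (X ^ a) ^ (1 / (a : ℝ)) := by
      rw [one_div, Real.pow_rpow_inv_natCast (by linarith) ha.ne']
    rw [h4]
    exact Real.rpow_le_rpow (by positivity) h3 (by positivity)
  refine ⟨?_, hdj, hXone.trans hPU, hAw, hHB⟩
  rw [← hX]
  exact hPU

/-- the weight of a set of untyped primes -/
def wHX {K : Type} [Field K] [NumberField K] {Ω : Type} [Field Ω] [Algebra K Ω] {p : ℕ} {ζ : K}
    (D : RD0 K p ζ) (L : LDs D Ω) (H : Type) [Group H] (a : ℕ) (E : Finset (Pl K)) : ℝ :=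
  nr E ^ (1 / (4 * (a : ℝ))) *
    ∑ A ∈ H51.TC.Aw E, ((H51.TC.HB D L H A).ncard : ℝ) *
      ((∏ v ∈ A, (nm v : ℝ) ^ (-(((a + 1 : ℕ) : ℝ) / (a : ℝ)))) *
        ∏ v ∈ E \ A, (nm v : ℝ) ^ (-1 : ℝ))

theorem wHX_nonneg {K : Type} [Field K] [NumberField K] {Ω : Type} [Field Ω] [Algebra K Ω]
    {p : ℕ} {ζ : K} (D : RD0 K p ζ) (L : LDs D Ω) (H : Type) [Group H] (a : ℕ)
    (E : Finset (Pl K)) : 0 ≤ wHX D L H a E := by
  have hnr := one_le_nr E
  refine mul_nonneg (Real.rpow_nonneg (by linarith) _) (Finset.sum_nonneg fun A _ => ?_)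
  exact mul_nonneg (Nat.cast_nonneg _)
    (mul_nonneg (Finset.prod_nonneg fun v _ => Real.rpow_nonneg (Nat.cast_nonneg _) _)
      (Finset.prod_nonneg fun v _ => Real.rpow_nonneg (Nat.cast_nonneg _) _))

theorem wHX_summable {K : Type} [Field K] [NumberField K] {Ω : Type} [Field Ω] [Algebra K Ω]
    {p : ℕ} {ζ : K} (D : RD0 K p ζ) (L : LDs D Ω) (H : Type) [Group H]
    (hRB : H51.TC.RBL D L H) (a : ℕ) (ha : 0 < a) : Summable (wHX D L H a) := by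
  refine (H51.TC.wts D L H hRB a ha 1 zero_le_one).congr fun E => ?_
  rw [one_pow, one_mul]
  rfl

/-- the number of homomorphisms with given set of untyped primes -/
theorem hux_cnt {K : IntermediateField ℚ QBar} [NumberField K] {p : ℕ} {ζ : K} {N : ℕ}
    {G P H : Type}
    [Group G] [Finite G] [Group P] [Group H] (hp : p.Prime)
    (hζ : IsPrimitiveRoot ζ p) {M : ℕ} {z₂ : K} (hz2 : IsPrimitiveRoot z₂ (p ^ M))
    (D : RD K p ζ) (L : LDs D.toRD0 QBar) (Q : HX p N G P H)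
    (hU : PUb p M Q.cP) (hRB : H51.TC.RBL D.toRD0 L H)
    (hS : ∀ v : Pl K, ((Nat.card G : ℕ) : 𝓞 K) ∈ v.asIdeal → v ∈ D.S0) (a : ℕ) (ha : 0 < a)
    (ix : Subgroup G → ℕ) (h1 : ∀ H, H ≠ ⊥ → a ≤ ix H)
    (h2 : ∀ g : G, g ≠ 1 → ix (Subgroup.zpowers g) ≤ a → ∃ i, IsConj g (Q.cl.g i)) :
    ∃ C : ℝ, 0 < C ∧ ∀ (B : ℝ) (E : Finset (Pl K)), 3 ≤ B → ∀ Rs : Finset (Gal(QBar/K) →* G),
      (∀ φ ∈ Rs, H38.ML.FT φ ∧ Function.Surjective φ ∧ (∀ T : Finset (Pl K),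
        (∀ v ∈ T, v ∉ D.S0) → ∏ v ∈ T, (nm v : ℝ) ^ ix ((inr L v).map φ) ≤ B) ∧
        ∀ v, v ∈ E ↔ Rm L φ v ∧ ∀ i, ¬ TyC Q.cl L φ i v) →
      (Rs.card : ℝ) ≤ C * wHX D.toRD0 L H a E *
        (B ^ (1 / (a : ℝ)) * Real.log B ^ (N - 1)) := by
  have haR : (0 : ℝ) < (a : ℝ) := by exact_mod_cast ha
  have ha1 : (1 : ℝ) ≤ (a : ℝ) := by exact_mod_cast ha
  set η : ℝ := 1 / (4 * (a : ℝ)) with hη
  have hη0 : 0 < η := by positivity
  obtain ⟨C₂, hC₂, hub⟩ := hU K ζ hζ z₂ hz2 D L η hη0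
  refine ⟨C₂ * 2 ^ (N - 1), by positivity, ?_⟩
  intro B E hB Rs hRs
  have hB1 : 1 ≤ B := by linarith
  have hB0 : 0 < B := by linarith
  have hlog1 : 1 ≤ Real.log B := by
    rw [Real.le_log_iff_exp_le hB0]
    exact Real.exp_one_lt_three.le.trans hB
  have hnr := one_le_nr E
  have hsets : ∀ φ ∈ Rs, ∃ f : Fin N → Finset (Pl K), ∀ i v, v ∈ f i ↔ TyC Q.cl L φ i v := by
    intro φ hφ
    obtain ⟨f, -, hf, -⟩ := csets L Q.cl φ (hRs φ hφ).1
    exact ⟨f, hf⟩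
  obtain ⟨eA, heA⟩ : ∃ eA : (Gal(QBar/K) →* G) → Finset (Pl K), ∀ φ,
      eA φ = E.filter fun v => (nm v).Prime ∨ Rm L (Q.ph.comp φ) v := ⟨_, fun _ => rfl⟩
  have hdat : ∀ φ ∈ Rs, ∀ f : Fin N → Finset (Pl K), (∀ i v, v ∈ f i ↔ TyC Q.cl L φ i v) →
      ∏ i, nr (f i) ≤ H51.TC.UA B a (eA φ) E ∧ Dj f ∧ 1 ≤ H51.TC.UA B a (eA φ) E ∧
      eA φ ∈ H51.TC.Aw E ∧ Q.ph.comp φ ∈ H51.TC.HB D.toRD0 L H (eA φ) := by
    intro φ hφ f hf
    obtain ⟨r1, -, r2, r3⟩ := hRs φ hφ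
    exact hux_cnr hp hζ D.toRD0 L Q hS a ha ix h1 h2 φ r1 B r2 f E hf r3 (eA φ) (heA φ)
  have hHf : ∀ A, (H51.TC.HB D.toRD0 L H A).Finite := fun A =>
    H51.TC.hb_fin D.toRD0 L H hRB A
  -- the components in `P`
  have hPU : ∀ φ ∈ Rs, Q.pr.comp φ ∈ PU L Q.cP E (H51.TC.UA B a (eA φ) E) := by
    intro φ hφ
    obtain ⟨r1, r2, r3, r4⟩ := hRs φ hφ
    obtain ⟨f, hf⟩ := hsets φ hφ
    obtain ⟨g1, g2, -, -, -⟩ := hdat φ hφ f hf
    have hty : ∀ v, v ∉ D.S0 → v ∉ E → (∀ τ ∈ inr L v, φ τ = 1) ∨ ∃ i, TyC Q.cl L φ i v := by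
      intro v hv hvE
      by_cases h : ∀ τ ∈ inr L v, φ τ = 1
      · exact Or.inl h
      · right
        by_contra hcon
        push Not at hcon h
        exact hvE ((r4 v).2 ⟨⟨hv, h⟩, hcon⟩)
    refine ⟨ft_comp _ _ r1, Q.prs.comp r2, fun v hv hvE => ?_, fun T hT => ?_⟩
    · rcases hty v hv hvE with h | ⟨i, hi⟩
      · exact Or.inl fun τ hτ => by rw [MonoidHom.comp_apply, h τ hτ, map_one]
      · exact Or.inr ⟨i, ((hx_ty hp hζ Q L φ r1 i v).1 hi).1⟩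
    · have hsub : T ⊆ Finset.univ.biUnion f := by
        intro v hv
        obtain ⟨g5, g6, g7⟩ := hT v hv
        rcases hty v g5 g6 with h | ⟨i, hi⟩
        · exact absurd (fun τ hτ => by rw [MonoidHom.comp_apply, h τ hτ, map_one]) g7
        · exact Finset.mem_biUnion.2 ⟨i, Finset.mem_univ _, (hf i v).2 hi⟩
      calc ∏ v ∈ T, (nm v : ℝ) ≤ ∏ v ∈ Finset.univ.biUnion f, (nm v : ℝ) := by
            rw [← Finset.prod_sdiff hsub]
            refine le_mul_of_one_le_left (Finset.prod_nonneg fun v _ => Nat.cast_nonneg _) ?_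
            exact one_le_nr _
        _ = ∏ i, nr (f i) := by
            rw [Finset.prod_biUnion fun i _ j _ hij => g2 i j hij]
            rfl
        _ ≤ _ := g1
  -- the fibres
  have hfib : ∀ (A : Finset (Pl K)) (β : Gal(QBar/K) →* H),
      ((Rs.filter fun φ => eA φ = A ∧ Q.ph.comp φ = β).card : ℝ) ≤
        C₂ * nr E ^ η * H51.TC.UA B a A E * (2 * Real.log B) ^ (N - 1) := by
    intro A β
    have hUA := H51.TC.ua_le B hB1 a A E
    have hrhs : 0 ≤ C₂ * nr E ^ η * H51.TC.UA B a A E * (2 * Real.log B) ^ (N - 1) := by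
      have := hUA.1
      positivity
    rcases (Rs.filter fun φ => eA φ = A ∧ Q.ph.comp φ = β).eq_empty_or_nonempty
      with h0 | ⟨φ₀, hφ₀⟩
    · rw [h0, Finset.card_empty, Nat.cast_zero]
      exact hrhs
    rw [Finset.mem_filter] at hφ₀
    obtain ⟨hφ₀, hA₀, -⟩ := hφ₀
    obtain ⟨f₀, hf₀⟩ := hsets φ₀ hφ₀
    obtain ⟨-, -, hUA1, -, -⟩ := hdat φ₀ hφ₀ f₀ hf₀
    rw [hA₀] at hUA1
    have hlogU : Real.log (H51.TC.UA B a A E) ≤ Real.log B := by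
      have h5 : H51.TC.UA B a A E ≤ B := by
        refine hUA.2.trans ?_
        calc B ^ (1 / (a : ℝ)) ≤ B ^ (1 : ℝ) := by
              refine Real.rpow_le_rpow_of_exponent_le hB1 ?_
              rw [div_le_one haR]
              exact ha1
          _ = B := Real.rpow_one B
      exact Real.log_le_log (by linarith) h5
    have hlogU0 : 0 ≤ Real.log (H51.TC.UA B a A E) := Real.log_nonneg hUA1
    have h6 : (1 + Real.log (H51.TC.UA B a A E)) ^ (N - 1) ≤ (2 * Real.log B) ^ (N - 1) :=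
      pow_le_pow_left₀ (by linarith) (by linarith) _
    have hinj : Set.InjOn (fun φ : Gal(QBar/K) →* G => Q.pr.comp φ)
        ((Rs.filter fun φ => eA φ = A ∧ Q.ph.comp φ = β :
          Finset (Gal(QBar/K) →* G)) : Set (Gal(QBar/K) →* G)) := by
      intro φ hφ φ' hφ' h
      rw [Finset.mem_coe, Finset.mem_filter] at hφ hφ'
      refine MonoidHom.ext fun σ => Q.inj _ _ (DFunLike.congr_fun h σ) ?_
      exact DFunLike.congr_fun (hφ.2.2.trans hφ'.2.2.symm) σ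
    have h7 := hub E (H51.TC.UA B a A E) hUA1
      ((Rs.filter fun φ => eA φ = A ∧ Q.ph.comp φ = β).image fun φ => Q.pr.comp φ) (by
        intro ψ hψ
        obtain ⟨φ, hφ, rfl⟩ := Finset.mem_image.1 hψ
        obtain ⟨hφ1, hφ2, -⟩ := Finset.mem_filter.1 hφ
        have h8 := hPU φ hφ1
        rw [hφ2] at h8
        exact h8)
    rw [Finset.card_image_of_injOn hinj] at h7
    refine h7.trans (mul_le_mul_of_nonneg_left h6 ?_)
    have := hUA.1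
    positivity
  -- given `A`
  have hcA : ∀ A ∈ H51.TC.Aw E, ((Rs.filter fun φ => eA φ = A).card : ℝ) ≤
      ((H51.TC.HB D.toRD0 L H A).ncard : ℝ) *
        (C₂ * nr E ^ η * H51.TC.UA B a A E * (2 * Real.log B) ^ (N - 1)) := by
    intro A _
    have hmap : ∀ φ ∈ Rs.filter (fun φ => eA φ = A), Q.ph.comp φ ∈ (hHf A).toFinset := by
      intro φ hφ
      obtain ⟨hφ1, hφ2⟩ := Finset.mem_filter.1 hφ
      obtain ⟨f, hf⟩ := hsets φ hφ1
      obtain ⟨-, -, -, -, h3⟩ := hdat φ hφ1 f hf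
      rw [hφ2] at h3
      rw [Set.Finite.mem_toFinset]
      exact h3
    rw [Finset.card_eq_sum_card_fiberwise
      (fun φ hφ => Finset.mem_coe.2 (hmap φ (Finset.mem_coe.1 hφ)))]
    push_cast
    calc ∑ β ∈ (hHf A).toFinset, (((Rs.filter fun φ => eA φ = A).filter
          fun φ => Q.ph.comp φ = β).card : ℝ) ≤
        ∑ β ∈ (hHf A).toFinset,
          C₂ * nr E ^ η * H51.TC.UA B a A E * (2 * Real.log B) ^ (N - 1) := by
          refine Finset.sum_le_sum fun β _ => ?_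
          refine le_trans ?_ (hfib A β)
          rw [Nat.cast_le]
          refine Finset.card_le_card fun φ hφ => ?_
          obtain ⟨hφ1, hφ2⟩ := Finset.mem_filter.1 hφ
          obtain ⟨hφ3, hφ4⟩ := Finset.mem_filter.1 hφ1
          exact Finset.mem_filter.2 ⟨hφ3, hφ4, hφ2⟩
      _ = _ := by
          rw [Finset.sum_const, nsmul_eq_mul, Set.ncard_eq_toFinset_card _ (hHf A)]
  have hmapA : ∀ φ ∈ Rs, eA φ ∈ H51.TC.Aw E := by
    intro φ hφ
    obtain ⟨f, hf⟩ := hsets φ hφ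
    exact (hdat φ hφ f hf).2.2.2.1
  rw [Finset.card_eq_sum_card_fiberwise
    (fun φ hφ => Finset.mem_coe.2 (hmapA φ (Finset.mem_coe.1 hφ)))]
  push_cast
  refine (Finset.sum_le_sum hcA).trans (le_of_eq ?_)
  have e2 : ∀ A, H51.TC.UA B a A E = B ^ (1 / (a : ℝ)) *
      ((∏ v ∈ A, (nm v : ℝ) ^ (-(((a + 1 : ℕ) : ℝ) / (a : ℝ)))) *
        ∏ v ∈ E \ A, (nm v : ℝ) ^ (-1 : ℝ)) := fun A => rfl
  unfold wHX
  rw [← hη, Finset.mul_sum, Finset.mul_sum, Finset.sum_mul]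
  refine Finset.sum_congr rfl fun A _ => ?_
  rw [e2, mul_pow]
  ring

theorem hux {K : IntermediateField ℚ QBar} [NumberField K] {p : ℕ} {ζ : K} {N : ℕ}
    {G P H : Type}
    [Group G] [Finite G] [Group P] [Group H] (hp : p.Prime)
    (hζ : IsPrimitiveRoot ζ p) {M : ℕ} {z₂ : K} (hz2 : IsPrimitiveRoot z₂ (p ^ M))
    (D : RD K p ζ) (L : LDs D.toRD0 QBar) (Q : HX p N G P H)
    (hP : IsPGroup p P) (hU : PUb p M Q.cP) (hRB : H51.TC.RBL D.toRD0 L H)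
    (hS : ∀ v : Pl K, ((Nat.card G : ℕ) : 𝓞 K) ∈ v.asIdeal → v ∈ D.S0) (a : ℕ) (ha : 0 < a)
    (ix : Subgroup G → ℕ) (h1 : ∀ H, H ≠ ⊥ → a ≤ ix H)
    (h2 : ∀ g : G, g ≠ 1 → ix (Subgroup.zpowers g) ≤ a → ∃ i, IsConj g (Q.cl.g i)) :
    (∃ wt : Finset (Pl K) → ℝ, Summable wt ∧ (∀ E, 0 ≤ wt E) ∧
      ∀ (B : ℝ) (E : Finset (Pl K)), 3 ≤ B → ∀ Rs : Finset (Gal(QBar/K) →* G),
      (∀ φ ∈ Rs, H38.ML.FT φ ∧ Function.Surjective φ ∧ (∀ T : Finset (Pl K),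
        (∀ v ∈ T, v ∉ D.S0) → ∏ v ∈ T, (nm v : ℝ) ^ ix ((inr L v).map φ) ≤ B) ∧
        ∀ v, v ∈ E ↔ Rm L φ v ∧ ∀ i, ¬ TyC Q.cl L φ i v) →
      (Rs.card : ℝ) ≤ wt E * (B ^ (1 / (a : ℝ)) * Real.log B ^ (N - 1))) ∧
    ∃ C : ℝ, 0 < C ∧ ∀ B : ℝ, 3 ≤ B → ∀ Rs : Finset (Gal(QBar/K) →* G),
      (∀ φ ∈ Rs, H38.ML.FT φ ∧ Function.Surjective φ ∧ ∀ T : Finset (Pl K),
        (∀ v ∈ T, v ∉ D.S0) → ∏ v ∈ T, (nm v : ℝ) ^ ix ((inr L v).map φ) ≤ B) →
      (Rs.card : ℝ) ≤ C * (B ^ (1 / (a : ℝ)) * Real.log B ^ (N - 1)) := by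
  obtain ⟨C, hC, hcnt⟩ := hux_cnt hp hζ hz2 D L Q hU hRB hS a ha ix h1 h2
  have hsum := wHX_summable D.toRD0 L H hRB a ha
  have h0 := wHX_nonneg D.toRD0 L H a
  refine ⟨⟨fun E => C * wHX D.toRD0 L H a E, hsum.mul_left _,
    fun E => mul_nonneg hC.le (h0 E), hcnt⟩,
    C * (∑' E, wHX D.toRD0 L H a E + 1), ?_, fun B hB Rs hRs => ?_⟩
  · have h9 : (0 : ℝ) ≤ ∑' E, wHX D.toRD0 L H a E := tsum_nonneg h0
    positivity
  have hex : ∀ φ : Gal(QBar/K) →* G, ∃ E : Finset (Pl K), φ ∈ Rs →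
      ∀ v, v ∈ E ↔ Rm L φ v ∧ ∀ i, ¬ TyC Q.cl L φ i v := by
    intro φ
    by_cases hφ : φ ∈ Rs
    · obtain ⟨-, E, -, hE⟩ := csets L Q.cl φ (hRs φ hφ).1
      exact ⟨E, fun _ => hE⟩
    · exact ⟨∅, fun h => absurd h hφ⟩
  choose e he using hex
  have hlog : 0 ≤ Real.log B := Real.log_nonneg (by linarith)
  have hX : 0 ≤ B ^ (1 / (a : ℝ)) * Real.log B ^ (N - 1) :=
    mul_nonneg (Real.rpow_nonneg (by linarith) _) (pow_nonneg hlog _)
  rw [Finset.card_eq_sum_card_image e]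
  push_cast
  calc ∑ E ∈ Rs.image e, ((Rs.filter fun φ => e φ = E).card : ℝ) ≤
      ∑ E ∈ Rs.image e, C * wHX D.toRD0 L H a E *
          (B ^ (1 / (a : ℝ)) * Real.log B ^ (N - 1)) := by
        refine Finset.sum_le_sum fun E _ => hcnt B E hB _ ?_
        intro φ hφ
        obtain ⟨hφ, hE⟩ := Finset.mem_filter.1 hφ
        obtain ⟨r1, r2, r3⟩ := hRs φ hφ
        refine ⟨r1, r2, r3, ?_⟩
        rw [← hE]
        exact he φ hφ
    _ = C * (B ^ (1 / (a : ℝ)) * Real.log B ^ (N - 1)) *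
        ∑ E ∈ Rs.image e, wHX D.toRD0 L H a E := by
        rw [Finset.mul_sum]
        exact Finset.sum_congr rfl fun E _ => by ring
    _ ≤ C * (B ^ (1 / (a : ℝ)) * Real.log B ^ (N - 1)) *
        (∑' E, wHX D.toRD0 L H a E + 1) := by
        refine mul_le_mul_of_nonneg_left ?_ (mul_nonneg hC.le hX)
        have := hsum.sum_le_tsum (Rs.image e) fun E _ => h0 E
        linarith
    _ = _ := by ring

end H51.HC
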