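import Pool.Agent.H19.AB.Qz
import Pool.Agent.H57.CC.VS

/-!
# [H51 HC SEP] homomorphisms to a `p`-group unramified outside `S0` are determined by their restrictions to the decomposition groups at `S0`

* `sep_chr`: an additive function `f : Γ → ZMod p` of finite type, `0` on inertia outside `S0` and on the decomposition groups at `S0`, is `0`. PROOF. `f = kk p ζ a` (`vs_kc`, H57/CC/VS.lean). For `v ∉ S0`: `ord v a = f (t v) = 0` modulo `p`
  (`ld_kk_t`, H63/MA/GLoc.lean, `L.t v ∈ inr L v`). The product `y₀` of the `D.pi v ^ (ord v a / p)` (finitely many `v`) gives the `S0`-unit `u = a y₀^(-p)`; `kk u = kk a` (`kk_mul`, `kk_zpow_arg`); `PS p ζ D.S0 u` by `H19.AB.ps_of`; `D.unit u` gives `IsPow p u`, so `f = kk u = 0`.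
* `sep_hom`: `χ`, `χ'` to a finite `p`-group `R`, unramified outside `S0`, equal on the decomposition groups at `S0`, are equal. PROOF. `M` = the range of `(χ, χ') : Γ → R × R`, a `p`-group, `M₀` = the elements of `M` with equal components. If `χ ≠ χ'` then `M₀ ≠ M`; a maximal subgroup
  `M₁` containing `M₀` is normal of index `p` (finite `p`-groups: `IsPGroup`, `IsCoatom`; nilpotent groups: `Group.normalizerCondition_of_isNilpotent`, `Subgroup.NormalizerCondition.normal_of_coatom`; the quotient is a simple `p`-group, of order `p`), so there is a surjective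
  `f : M → Multiplicative (ZMod p)` with kernel `M₁`; `f ∘ (χ, χ')` is as in `sep_chr`, so it is `0`: contradiction.
-/

set_option autoImplicit false

open scoped NumberField
open IsDedekindDomain H38.ML
open scoped Classical

noncomputable section

namespace H51.HC

open H63.MA H38.BB H38.BG H57.PC H57.BRA H63.BU H57.CC

variable {K : Type} [Field K] [NumberField K] {Ω : Type} [Field Ω] [Algebra K Ω]
  [IsAlgClosure K Ω] {p : ℕ} {ζ : K}

theorem sep_chr (hp : p.Prime) (hζ : IsPrimitiveRoot ζ p) (D : RD0 K p ζ) (L : LDs D Ω)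
    (Q' : DP K Ω) (f : Gal(Ω/K) → ZMod p) (hf : ∀ σ τ, f (σ * τ) = f σ + f τ)
    (hl : ∃ E : IntermediateField K Ω, FiniteDimensional K E ∧ ∀ u ∈ E.fixingSubgroup, f u = 0)
    (h1 : ∀ v, v ∉ D.S0 → ∀ τ ∈ inr L v, f τ = 0)
    (h2 : ∀ v ∈ D.S0, ∀ σ ∈ dec (K := K) (Q'.P v), f σ = 0) (σ : Gal(Ω/K)) : f σ = 0 := by
  obtain ⟨a, ha⟩ := vs_kc hp hζ f hf hl
  have h3 : ∀ v, v ∉ D.S0 → (p : ℤ) ∣ ord v a := fun v hv => by
    rw [← ZMod.intCast_zmod_eq_zero_iff_dvd _ p]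
    have h4 := ld_kk_t hp hζ (fun h => hv (D.above v h)) (D.pi_self v hv) (L.ld v hv) a
    rw [← h4, ha]
    refine h1 v hv _ ?_
    unfold inr
    rw [dif_pos hv]
    exact (L.ld v hv).ht
  set T := (finite_ord a).toFinset with hT
  obtain ⟨y₀, hy₀⟩ : ∃ y₀ : Kˣ, y₀ = ∏ w ∈ T, if w ∈ D.S0 then 1 else D.pi w ^ (ord w a / p) :=
    ⟨_, rfl⟩
  have ho : ∀ v, v ∉ D.S0 → ord v y₀ = ord v a / p := fun v hv => by
    rw [hy₀, ord_prod]
    have h5 : ∀ w ∈ T, ord v (if w ∈ D.S0 then 1 else D.pi w ^ (ord w a / (p : ℤ))) =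
        if v = w then ord v a / p else 0 := by
      intro w _
      by_cases hw : w ∈ D.S0
      · have hne : ¬ v = w := fun h => hv (by rw [h]; exact hw)
        rw [if_pos hw, ord_one, if_neg hne]
      · rw [if_neg hw, ord_zpow]
        by_cases hwv : v = w
        · rw [if_pos hwv, hwv, D.pi_self w hw, mul_one]
        · rw [if_neg hwv, D.pi_ne w v hw hv hwv, mul_zero]
    rw [Finset.sum_congr rfl h5, Finset.sum_ite_eq]
    by_cases h : v ∈ T
    · rw [if_pos h]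
    · rw [if_neg h]
      rw [hT, Set.Finite.mem_toFinset] at h
      have h6 : ord v a = 0 := not_not.1 h
      rw [h6, Int.zero_ediv]
  have hk : ∀ σ : Gal(Ω/K), kk p ζ (a * y₀ ^ (-(p : ℤ))) σ = f σ := fun σ => by
    rw [kk_mul_arg hp hζ, kk_zpow_arg hp hζ, ha]
    push_cast
    rw [CharP.cast_eq_zero, neg_zero, zero_mul, add_zero]
  have hu : TUnit D.S0 (a * y₀ ^ (-(p : ℤ))) := fun v hv => by
    rw [ord_mul, ord_zpow, ho v hv, neg_mul, Int.mul_ediv_cancel' (h3 v hv), add_neg_cancel]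
  have hps : PS p ζ D.S0 (a * y₀ ^ (-(p : ℤ))) := Pool.Agent.H19.AB.ps_of hp hζ D Q' _ fun v hv σ hσ => by
    rw [hk]
    exact h2 v hv σ hσ
  obtain ⟨y, hy⟩ := D.unit _ hu hps
  rw [← hk σ, ← hy, ← zpow_natCast, kk_zpow_arg hp hζ, Int.cast_natCast, CharP.cast_eq_zero,
    zero_mul]

private theorem chr_ex (hp : p.Prime) {M : Type} [Group M] [Finite M] (hM : IsPGroup p M)
    (M₀ : Subgroup M) (h : M₀ ≠ ⊤) :
    ∃ f : M →* Multiplicative (ZMod p), (∀ x ∈ M₀, f x = 1) ∧ ∃ x, f x ≠ 1 := by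
  have : Fact p.Prime := ⟨hp⟩
  obtain ⟨r, hr⟩ := IsPGroup.iff_card.1 hM
  obtain ⟨s, hs⟩ := IsPGroup.iff_card.1 (hM.to_subgroup M₀)
  have hsr : s < r := by
    refine lt_of_not_ge fun h1 => h ?_
    refine Subgroup.eq_top_of_card_eq _ (le_antisymm (Subgroup.card_le_card_group _) ?_)
    rw [hr, hs]
    exact Nat.pow_le_pow_right hp.pos h1
  obtain ⟨M₁, hM1, hM2⟩ := Sylow.exists_subgroup_card_pow_prime_le (p := p) (n := s) (m := r - 1)
    (by rw [hr]; exact pow_dvd_pow _ (Nat.sub_le _ _)) M₀ hs (by omega)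
  have hi : M₁.index = p := by
    have h1 := Subgroup.card_mul_index M₁
    rw [hM1, hr, show r = (r - 1) + 1 by omega, pow_succ, Nat.add_sub_cancel] at h1
    exact Nat.eq_of_mul_eq_mul_left (pow_pos hp.pos _) h1
  have hco : IsCoatom M₁ := by
    constructor
    · rintro rfl
      rw [Subgroup.index_top] at hi
      exact hp.one_lt.ne hi
    · intro K hK
      have h1 := Subgroup.relIndex_mul_index hK.le
      rw [hi] at h1
      rcases (Nat.dvd_prime hp).1 (Dvd.intro_left _ h1) with h2 | h2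
      · exact Subgroup.index_eq_one.1 h2
      · exfalso
        rw [h2] at h1
        have h3 : M₁.relIndex K = 1 := by
          have h4 : M₁.relIndex K * p = 1 * p := by rw [h1, one_mul]
          exact Nat.eq_of_mul_eq_mul_right hp.pos h4
        exact hK.not_ge (Subgroup.relIndex_eq_one.1 h3)
  have hMn : M₁.Normal := Subgroup.NormalizerCondition.normal_of_coatom M₁
    (Group.normalizerCondition_of_isNilpotent (h := hM.isNilpotent)) hco
  have hc1 : Nat.card (M ⧸ M₁) = p := hi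
  have hc2 : Nat.card (Multiplicative (ZMod p)) = p := by
    rw [Nat.card_congr Multiplicative.toAdd, Nat.card_zmod]
  obtain ⟨e⟩ : Nonempty ((M ⧸ M₁) ≃* Multiplicative (ZMod p)) := ⟨mulEquivOfPrimeCardEq hc1 hc2⟩
  have hk : ∀ x : M, (e.toMonoidHom.comp (QuotientGroup.mk' M₁)) x = 1 ↔ x ∈ M₁ := by
    intro x
    have h1 : (e.toMonoidHom.comp (QuotientGroup.mk' M₁)) x = e (QuotientGroup.mk x) := rfl
    rw [h1, EmbeddingLike.map_eq_one_iff, QuotientGroup.eq_one_iff]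
  refine ⟨e.toMonoidHom.comp (QuotientGroup.mk' M₁), fun x hx => (hk x).2 (hM2 hx), ?_⟩
  by_contra hno
  push Not at hno
  exact hco.1 (eq_top_iff.2 fun x _ => (hk x).1 (hno x))

theorem sep_hom (hp : p.Prime) (hζ : IsPrimitiveRoot ζ p) (D : RD0 K p ζ) (L : LDs D Ω)
    (Q' : DP K Ω) {R : Type} [Group R] [Finite R] (hR : IsPGroup p R) (χ χ' : Gal(Ω/K) →* R)
    (hχ : H38.ML.FT χ) (hχ' : H38.ML.FT χ') (h1 : ∀ v, v ∉ D.S0 → ∀ τ ∈ inr L v, χ τ = 1)
    (h1' : ∀ v, v ∉ D.S0 → ∀ τ ∈ inr L v, χ' τ = 1)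
    (h2 : ∀ v ∈ D.S0, ∀ σ ∈ dec (K := K) (Q'.P v), χ σ = χ' σ) : χ = χ' := by
  by_contra hne
  obtain ⟨σ₀, hσ₀⟩ : ∃ σ, χ σ ≠ χ' σ := by
    by_contra hno
    push Not at hno
    exact hne (MonoidHom.ext hno)
  have hRR : IsPGroup p (R × R) := fun x => by
    obtain ⟨i, hi⟩ := hR x.1
    obtain ⟨j, hj⟩ := hR x.2
    refine ⟨i + j, Prod.ext ?_ ?_⟩
    · show x.1 ^ p ^ (i + j) = 1
      rw [pow_add, pow_mul, hi, one_pow]
    · show x.2 ^ p ^ (i + j) = 1
      rw [add_comm, pow_add, pow_mul, hj, one_pow]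
  obtain ⟨Φ, hΦ⟩ : ∃ Φ : Gal(Ω/K) →* R × R, Φ = χ.prod χ' := ⟨_, rfl⟩
  have hΦv : ∀ σ, Φ σ = (χ σ, χ' σ) := fun σ => by rw [hΦ]; rfl
  obtain ⟨M₀, hM₀⟩ : ∃ M₀ : Subgroup Φ.range, ∀ x : Φ.range, x ∈ M₀ ↔ x.1.1 = x.1.2 :=
    ⟨((MonoidHom.fst R R).eqLocus (MonoidHom.snd R R)).comap Φ.range.subtype, fun x => Iff.rfl⟩
  obtain ⟨f, hf1, x₀, hx₀⟩ := chr_ex hp (hRR.to_subgroup Φ.range) M₀ fun h => by
    have h3 : (Φ.rangeRestrict σ₀) ∈ M₀ := by rw [h]; exact Subgroup.mem_top _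
    rw [hM₀] at h3
    apply hσ₀
    have h4 : (Φ.rangeRestrict σ₀).1 = (χ σ₀, χ' σ₀) := hΦv σ₀
    rw [h4] at h3
    exact h3
  obtain ⟨E₁, hE₁, hE₁'⟩ := hχ
  obtain ⟨E₂, hE₂, hE₂'⟩ := hχ'
  have hz := sep_chr hp hζ D L Q' (fun σ => Multiplicative.toAdd (f (Φ.rangeRestrict σ)))
    (fun σ τ => by rw [map_mul, map_mul, toAdd_mul])
    ⟨E₁ ⊔ E₂, IntermediateField.finiteDimensional_sup E₁ E₂, fun u hu => by
      have h3 : χ u = 1 := hE₁' (IntermediateField.fixingSubgroup_antitone le_sup_left hu)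
      have h4 : χ' u = 1 := hE₂' (IntermediateField.fixingSubgroup_antitone le_sup_right hu)
      have h5 : Φ.rangeRestrict u = 1 := by
        apply Subtype.ext
        show Φ u = 1
        rw [hΦv, h3, h4]
        rfl
      show Multiplicative.toAdd (f (Φ.rangeRestrict u)) = 0
      rw [h5, map_one, toAdd_one]⟩
    (fun v hv τ hτ => by
      have h5 : Φ.rangeRestrict τ = 1 := by
        apply Subtype.ext
        show Φ τ = 1
        rw [hΦv, h1 v hv τ hτ, h1' v hv τ hτ]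
        rfl
      show Multiplicative.toAdd (f (Φ.rangeRestrict τ)) = 0
      rw [h5, map_one, toAdd_one])
    (fun v hv σ hσ => by
      show Multiplicative.toAdd (f (Φ.rangeRestrict σ)) = 0
      rw [hf1 _ ((hM₀ _).2 ?_), toAdd_one]
      have h4 : (Φ.rangeRestrict σ).1 = (χ σ, χ' σ) := hΦv σ
      rw [h4]
      exact h2 v hv σ hσ)
  obtain ⟨σ, hσ⟩ := Φ.rangeRestrict_surjective x₀
  apply hx₀
  have h6 := hz σ
  rw [← hσ]
  exact Multiplicative.toAdd.injective h6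

end H51.HC
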