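import Pool.Agent.H51.HC.Fld

/-!
# H51-HC-SER: the conditions on `T` pass to the `p`-group (MP_b39724_nt)

* `ser_hf`: a full series. `c4_hf`: the condition `C4`.
-/

set_option autoImplicit false

open scoped NumberField
open IsDedekindDomain Filter Topology H38.ML
open scoped Classical

noncomputable section

namespace H51.HC

open H63.MA H38.BB H38.BG H57.PC H57.BRA H63.BU H77.PC3 H57.CC H38.AS H77.S0T H77.AB H77.GN
  H77.UX H77.FLD H77.PLF H51.PF H51.NS H51.F3 H12.S3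

variable {n p N : ℕ} {G : Subgroup (Equiv.Perm (Fin n))} {P H : Type} [Group P] [Group H]

/-- full series of normal subgroups of `G` -/
def SerH (G : Subgroup (Equiv.Perm (Fin n))) : Prop :=
  ∃ (r : ℕ) (T : ℕ → Subgroup G), T 0 = ⊥ ∧
    T r = Subgroup.closure {h : G | h ≠ 1 ∧ Spec.ind (h : Equiv.Perm (Fin n)) = Spec.indG G} ∧
    ∀ i, i < r → T i ≤ T (i + 1) ∧ (T (i + 1)).Normal ∧ ((T i).relIndex (T (i + 1))).Prime ∧
      ∃ h : G, h ≠ 1 ∧ Spec.ind (h : Equiv.Perm (Fin n)) = Spec.indG G ∧ h ∈ T (i + 1) ∧ h ∉ T i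

theorem hf_inj (F : HF G p N P H) {x y : G} (hx : x ∈ Subgroup.closure (Li G))
    (hy : y ∈ Subgroup.closure (Li G)) (h : F.Q.pr x = F.Q.pr y) : x = y := by
  rw [← F.ker, MonoidHom.mem_ker] at hx hy
  exact F.Q.inj x y h (hx.trans hy.symm)

theorem ser_hf (hp : p.Prime) [Finite P] (F : HF G p N P H) (hs : SerH G) :
    Ser F.Q.cP (Tc F.Q.cP) := by
  have : Fact p.Prime := ⟨hp⟩
  obtain ⟨r, T, h0, hr, hs⟩ := hs
  have hle : ∀ i, i ≤ r → T i ≤ Subgroup.closure (Li G) := by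
    intro i hi
    have h1 : T i ≤ T r := by
      induction hi using Nat.decreasingInduction with
      | self => exact le_rfl
      | of_succ k hk ih => exact ((hs k hk).1).trans ih
    exact h1.trans hr.le
  have hcard : ∀ i, i ≤ r → Nat.card ((T i).map F.Q.pr) = Nat.card (T i) := by
    intro i hi
    refine (Nat.card_congr (Equiv.ofBijective
      (fun x : T i => (⟨F.Q.pr x, x, x.2, rfl⟩ : (T i).map F.Q.pr)) ⟨?_, ?_⟩)).symm
    · intro x y h
      exact Subtype.ext (hf_inj F (hle i hi x.2) (hle i hi y.2) (congrArg Subtype.val h))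
    · rintro ⟨_, x, hx, rfl⟩
      exact ⟨⟨x, hx⟩, rfl⟩
  have hnor : ∀ i, i ≤ r → (T i).Normal := by
    intro i hi
    rcases i with _ | j
    · rw [h0]
      infer_instance
    · exact (hs j (by omega)).2.1
  refine ⟨r, fun i => (T (min i r)).map F.Q.pr, ?_, ?_, fun i => ?_, fun i hi => ?_⟩
  · change (T (min 0 r)).map F.Q.pr = ⊥
    rw [Nat.zero_min, h0, Subgroup.map_bot]
  · change (T (min r r)).map F.Q.pr = _
    rw [min_self, hr, hf_tc F]
    rfl
  · exact (hnor _ (min_le_right _ _)).map _ F.Q.prs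
  · obtain ⟨h1, -, h3, h, h4, h5, h6, h7⟩ := hs i hi
    change (T (min i r)).map F.Q.pr ≤ (T (min (i + 1) r)).map F.Q.pr ∧
      Nat.card ((T (min (i + 1) r)).map F.Q.pr) = p * Nat.card ((T (min i r)).map F.Q.pr) ∧
      ∃ j, F.Q.cP.g j ∈ (T (min (i + 1) r)).map F.Q.pr ∧ F.Q.cP.g j ∉ (T (min i r)).map F.Q.pr
    rw [min_eq_left hi.le, min_eq_left (Nat.succ_le_of_lt hi)]
    refine ⟨Subgroup.map_mono h1, ?_, ?_⟩
    · have e1 : (T i).relIndex (T (i + 1)) * Nat.card (T i) = Nat.card (T (i + 1)) := by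
        have e0 := Subgroup.relIndex_mul_relIndex ⊥ (T i) (T (i + 1)) bot_le h1
        rw [Subgroup.relIndex_bot_left, Subgroup.relIndex_bot_left] at e0
        rw [mul_comm]
        exact e0
      obtain ⟨k, hk⟩ := IsPGroup.iff_card.1 (F.pg.to_subgroup ((T (i + 1)).map F.Q.pr))
      rw [hcard (i + 1) hi] at hk
      have e3 : (T i).relIndex (T (i + 1)) ∣ p ^ k := by
        rw [← hk, ← e1]
        exact Dvd.intro _ rfl
      have e4 : (T i).relIndex (T (i + 1)) = p :=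
        (Nat.prime_dvd_prime_iff_eq h3 hp).1 (h3.dvd_of_dvd_pow e3)
      rw [hcard (i + 1) hi, hcard i hi.le, ← e1, e4]
    · obtain ⟨j, hj⟩ := (F.cls h).1 ⟨h4, h5⟩
      obtain ⟨x, hx⟩ := isConj_iff.1 hj
      have hn1 := hnor i hi.le
      have hn2 := hnor (i + 1) hi
      have g1 : F.Q.cl.g j ∈ T (i + 1) := by
        rw [← hx]
        exact hn2.conj_mem _ h6 _
      have g2 : F.Q.cl.g j ∉ T i := by
        intro h8
        apply h7
        have h9 := hn1.conj_mem _ h8 x⁻¹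
        have h10 : x⁻¹ * F.Q.cl.g j * x⁻¹⁻¹ = h := by
          rw [← hx]
          group
        rwa [h10] at h9
      refine ⟨j, ⟨F.Q.cl.g j, g1, F.Q.hcl j⟩, ?_⟩
      rintro ⟨y, hy, hy2⟩
      apply g2
      rw [hf_inj F (hle _ hi g1) (hle _ hi.le hy) (by rw [hy2]; exact F.Q.hcl j)]
      exact hy

theorem c4_hf (F : HF G p N P H)
    (h : p ≠ 2 ∨ (Subgroup.closure {h : G | h ≠ 1 ∧ Spec.ind (h : Equiv.Perm (Fin n)) =
      Spec.indG G}).lowerCentralSeries 3 = ⊥) : C4 F.Q.cP := by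
  rcases h with h | h
  · exact Or.inl h
  · refine Or.inr ?_
    have h1 : (Subgroup.closure (Li G)).lowerCentralSeries 3 = ⊥ := h
    rw [hf_tc F, ← Subgroup.map_lowerCentralSeries, h1, Subgroup.map_bot]

end H51.HC
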