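import Pool.Agent.H51.HC.Typ
import Pool.Agent.H51.HC.Sep

/-!
# [H51 HC SYH] the fibre: `SYH` for `G` and `SYT` for `P`

* `syh`: if `ph ∘ φ₁` is surjective and unramified outside `S0`, then `φ ↦ pr ∘ φ` is a bijection from `SYH L Q' Q φ₁ Y` to `SYT L Q' Q.cP (Tc Q.cP) (pr ∘ φ₁) Y`. PROOF. Injective by `Q.inj`. Into: `hx_ty`, `hx_un`, `hx_tqt`. Onto: let `ψ` be in the right set. Modulo `Tc cP`
  both `ψ` (typed or unramified outside `S0`, the elements `ψ τ`, `τ` in inertia, are powers of `ψ (t v)` by `H48.MF.ing_inr`) and `pr ∘ φ₁` (`ph (φ₁ τ) = 1`, `hx_tc`) are unramified outside `S0` and they are equal on the decomposition groups at `S0` (`TqT`: conjugate by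
  an element of `Tc cP`), so they are equal by `sep_hom` for `R = P ⧸ Tc cP`. `hx_pair` gives `φ`; it is surjective (`hx_srj`), typed (`hx_ty`, `hx_un`, `ph (φ τ) = ph (φ₁ τ) = 1`).
* `hsf`: `SYH` is finite (`pu_fin`, `syt_sub` of H51/PF/Tyt.lean; if `ph ∘ φ₁` is not surjective it is empty). `hsl`: the asymptotic formula.
-/

set_option autoImplicit false

open scoped NumberField
open IsDedekindDomain H38.ML Filter Topology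
open scoped Classical

noncomputable section

namespace H51.HC

open H63.MA H38.BB H38.BG H57.PC H57.BRA H63.BU H77.PC3 H57.CC H38.AS H77.S0T H77.FLD H77.PLF
  H51.PF H51.F3

section loc

variable {K : Type} [Field K] [NumberField K] {Ω : Type} [Field Ω] [Algebra K Ω]
  [IsAlgClosure K Ω] {p N : ℕ} {ζ : K} {G P H : Type} [Group G] [Group P] [Group H]

theorem syh_hd [Finite G] (hp : p.Prime) (hζ : IsPrimitiveRoot ζ p) (Q : HX p N G P H)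
    (hP : IsPGroup p P) {D : RD0 K p ζ} (L : LDs D Ω) (Q' : DP K Ω) (φ₁ : Gal(Ω/K) →* G)
    (h₁ : H38.ML.FT φ₁)
    (hu : ∀ v, v ∉ D.S0 → ∀ τ ∈ inr L v, Q.ph (φ₁ τ) = 1) (Y : ℝ) (ψ : Gal(Ω/K) →* P)
    (hψ : ψ ∈ SYT L Q' Q.cP (Tc Q.cP) (Q.pr.comp φ₁) Y) (σ : Gal(Ω/K)) :
    (Q.pr (φ₁ σ))⁻¹ * ψ σ ∈ Tc Q.cP := by
  haveI : Finite P := Finite.of_surjective _ Q.prs
  obtain ⟨g1, g2, g3, g4, g5⟩ := hψ
  have hq := sep_hom hp hζ D L Q' (hP.to_quotient (Tc Q.cP))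
    ((QuotientGroup.mk' (Tc Q.cP)).comp (Q.pr.comp φ₁)) ((QuotientGroup.mk' (Tc Q.cP)).comp ψ)
    (ft_comp _ _ (ft_comp _ _ h₁)) (ft_comp _ _ g1) ?_ ?_ ?_
  · have h3 : (QuotientGroup.mk' (Tc Q.cP)) (Q.pr (φ₁ σ)) = (QuotientGroup.mk' (Tc Q.cP)) (ψ σ) :=
      DFunLike.congr_fun hq σ
    exact QuotientGroup.eq.1 h3
  · intro v hv τ hτ
    refine (QuotientGroup.eq_one_iff _).2 ?_
    rw [← hx_tc Q]
    exact Subgroup.mem_map_of_mem _ (hu v hv τ hτ)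
  · intro v hv τ hτ
    refine (QuotientGroup.eq_one_iff _).2 ?_
    rcases g4 v hv with h | ⟨i, hi⟩
    · rw [h τ hτ]
      exact Subgroup.one_mem _
    · have h5 := (H48.MF.ing_inr hp hζ L hv ψ g1 fun τ' _ => hP (ψ τ')).1 τ hτ
      have h6 : ψ (L.t v) ∈ Tc Q.cP := by
        obtain ⟨c, hc⟩ := isConj_iff.1 hi.2.1.symm
        rw [← hc]
        exact (Subgroup.normalClosure_normal).conj_mem _
          (Subgroup.subset_normalClosure (Set.mem_range_self i)) c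
      exact (Subgroup.zpowers_le.2 h6) h5
  · intro v hv σ' hσ'
    obtain ⟨g, hg, h7⟩ := g3 v hv
    have h8 : (QuotientGroup.mk' (Tc Q.cP)) g = 1 := (QuotientGroup.eq_one_iff _).2 hg
    change (QuotientGroup.mk' (Tc Q.cP)) (Q.pr (φ₁ σ')) = (QuotientGroup.mk' (Tc Q.cP)) (ψ σ')
    rw [h7 σ' hσ', map_mul, map_mul, map_inv, h8, one_mul, inv_one, mul_one]
    rfl

theorem syh_mem [Finite G] (hp : p.Prime) (hζ : IsPrimitiveRoot ζ p) (Q : HX p N G P H)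
    {D : RD0 K p ζ} (L : LDs D Ω) (Q' : DP K Ω) (φ₁ : Gal(Ω/K) →* G)
    (hu : ∀ v, v ∉ D.S0 → ∀ τ ∈ inr L v, Q.ph (φ₁ τ) = 1) (Y : ℝ)
    (φ : Gal(Ω/K) →* G) (hφ : H38.ML.FT φ) (he : Q.ph.comp φ = Q.ph.comp φ₁) :
    (φ ∈ SYH L Q' Q φ₁ Y → Q.pr.comp φ ∈ SYT L Q' Q.cP (Tc Q.cP) (Q.pr.comp φ₁) Y) ∧
    (Function.Surjective (Q.ph.comp φ₁) →
      Q.pr.comp φ ∈ SYT L Q' Q.cP (Tc Q.cP) (Q.pr.comp φ₁) Y → φ ∈ SYH L Q' Q φ₁ Y) := by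
  have hun : ∀ v, v ∉ D.S0 → ∀ τ ∈ inr L v, Q.ph (φ τ) = 1 := by
    intro v hv τ hτ
    have h1 : Q.ph (φ τ) = Q.ph (φ₁ τ) := DFunLike.congr_fun he τ
    rw [h1]
    exact hu v hv τ hτ
  constructor
  · rintro ⟨⟨-, h2, h3, h4, h5⟩, -⟩
    refine ⟨ft_comp _ _ hφ, Q.prs.comp h2, (hx_tqt Q D.S0 Q' φ φ₁ he).1 h3, fun v hv => ?_,
      fun X hX => ?_⟩
    · rcases h4 v hv with h | ⟨i, hi⟩
      · exact Or.inl ((hx_un Q L φ v).1 h).1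
      · exact Or.inr ⟨i, ((hx_ty hp hζ Q L φ hφ i v).1 hi).1⟩
    · refine h5 X fun v hv => ⟨(hX v hv).1, fun h => (hX v hv).2 ?_⟩
      exact ((hx_un Q L φ v).1 h).1
  · rintro hs ⟨-, g2, g3, g4, g5⟩
    refine ⟨⟨hφ, hx_srj Q φ g2 (by rw [he]; exact hs), (hx_tqt Q D.S0 Q' φ φ₁ he).2 g3,
      fun v hv => ?_, fun X hX => ?_⟩, he⟩
    · rcases g4 v hv with h | ⟨i, hi⟩
      · exact Or.inl ((hx_un Q L φ v).2 ⟨h, hun v hv⟩)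
      · exact Or.inr ⟨i, (hx_ty hp hζ Q L φ hφ i v).2 ⟨hi, hun v hv⟩⟩
    · refine g5 X fun v hv => ⟨(hX v hv).1, fun h => (hX v hv).2 ?_⟩
      exact (hx_un Q L φ v).2 ⟨h, hun v (hX v hv).1⟩

theorem syh [Finite G] (hp : p.Prime) (hζ : IsPrimitiveRoot ζ p) (Q : HX p N G P H)
    (hP : IsPGroup p P) {D : RD0 K p ζ} (L : LDs D Ω) (Q' : DP K Ω) (φ₁ : Gal(Ω/K) →* G)
    (h₁ : H38.ML.FT φ₁) (hs : Function.Surjective (Q.ph.comp φ₁))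
    (hu : ∀ v, v ∉ D.S0 → ∀ τ ∈ inr L v, Q.ph (φ₁ τ) = 1) (Y : ℝ) :
    (SYH L Q' Q φ₁ Y).ncard = (SYT L Q' Q.cP (Tc Q.cP) (Q.pr.comp φ₁) Y).ncard ∧
    ((SYT L Q' Q.cP (Tc Q.cP) (Q.pr.comp φ₁) Y).Finite → (SYH L Q' Q φ₁ Y).Finite) := by
  have hinj : Set.InjOn (fun φ : Gal(Ω/K) →* G => Q.pr.comp φ) (SYH L Q' Q φ₁ Y) := by
    intro φ hφ φ' hφ' h
    have h1 : Q.pr.comp φ = Q.pr.comp φ' := h
    have h2 : Q.ph.comp φ = Q.ph.comp φ' := hφ.2.trans hφ'.2.symm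
    ext σ
    exact Q.inj _ _ (DFunLike.congr_fun h1 σ) (DFunLike.congr_fun h2 σ)
  have himg : (fun φ : Gal(Ω/K) →* G => Q.pr.comp φ) '' (SYH L Q' Q φ₁ Y) =
      SYT L Q' Q.cP (Tc Q.cP) (Q.pr.comp φ₁) Y := by
    ext ψ
    rw [Set.mem_image]
    constructor
    · rintro ⟨φ, hφ, h⟩
      have h1 : Q.pr.comp φ = ψ := h
      rw [← h1]
      exact (syh_mem hp hζ Q L Q' φ₁ hu Y φ hφ.1.1 hφ.2).1 hφ
    · intro hψ
      obtain ⟨φ, h3, h4, h5⟩ := hx_pair Q φ₁ h₁ ψ hψ.1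
        (syh_hd hp hζ Q hP L Q' φ₁ h₁ hu Y ψ hψ)
      exact ⟨φ, (syh_mem hp hζ Q L Q' φ₁ hu Y φ h3 h5).2 hs (by rw [h4]; exact hψ), h4⟩
  constructor
  · rw [← himg, hinj.ncard_image]
  · intro h1
    refine Set.Finite.of_finite_image ?_ hinj
    rw [himg]
    exact h1

omit [IsAlgClosure K Ω] in
theorem syh_emp {D : RD0 K p ζ} (L : LDs D Ω) (Q' : DP K Ω) (Q : HX p N G P H)
    (φ₁ : Gal(Ω/K) →* G) (hs : ¬ Function.Surjective (Q.ph.comp φ₁)) (Y : ℝ) :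
    SYH L Q' Q φ₁ Y = ∅ := by
  refine Set.eq_empty_of_forall_notMem fun φ hφ => hs ?_
  rw [← hφ.2]
  exact Q.phs.comp hφ.1.2.1

end loc

variable {K : IntermediateField ℚ QBar} [NumberField K] {p N M : ℕ} {ζ z₂ : K} {G P H : Type}
  [Group G] [Group P] [Group H]

theorem hsf [Finite G] (hp : p.Prime) (hζ : IsPrimitiveRoot ζ p) (hz2 : IsPrimitiveRoot z₂ (p ^ M))
    (Q : HX p N G P H) (hP : IsPGroup p P) (hU : PUb p M Q.cP) (D : RD K p ζ)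
    (L : LDs D.toRD0 QBar) (Q' : DP K QBar) (φ₁ : Gal(QBar/K) →* G) (h₁ : H38.ML.FT φ₁)
    (hu : ∀ v, v ∉ D.S0 → ∀ τ ∈ inr L v, Q.ph (φ₁ τ) = 1) (Y : ℝ) :
    (SYH L Q' Q φ₁ Y).Finite := by
  by_cases hs : Function.Surjective (Q.ph.comp φ₁)
  · exact (syh hp hζ Q hP L Q' φ₁ h₁ hs hu Y).2
      ((pu_fin hζ hz2 hU D L Y).subset (syt_sub L Q' Q.cP (Tc Q.cP) _ Y))
  · rw [syh_emp L Q' Q φ₁ hs Y]
    exact Set.finite_empty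

theorem hsl [Finite G] (hp : p.Prime) (hζ : IsPrimitiveRoot ζ p) (hz2 : IsPrimitiveRoot z₂ (p ^ M))
    (Q : HX p N G P H) (hP : IsPGroup p P) (hL : PLimT p M Q.cP (Tc Q.cP)) (D : RD K p ζ)
    (L : LDs D.toRD0 QBar) (Q' : DP K QBar) (hLQ : LQ L Q') (φ₁ : Gal(QBar/K) →* G)
    (h₁ : H38.ML.FT φ₁) (hu : ∀ v, v ∉ D.S0 → ∀ τ ∈ inr L v, Q.ph (φ₁ τ) = 1) :
    ∃ L₀ : ℝ, Tendsto (fun Y : ℝ => ((SYH L Q' Q φ₁ Y).ncard : ℝ) /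
      (Y * Real.log Y ^ (N - 1))) atTop (𝓝 L₀) := by
  by_cases hs : Function.Surjective (Q.ph.comp φ₁)
  · obtain ⟨l, hl⟩ := hL K ζ hζ z₂ hz2 D L Q' hLQ (Q.pr.comp φ₁) (ft_comp _ _ h₁)
    refine ⟨l, hl.congr fun Y => ?_⟩
    rw [(syh hp hζ Q hP L Q' φ₁ h₁ hs hu Y).1]
  · refine ⟨0, tendsto_const_nhds.congr fun Y => ?_⟩
    rw [syh_emp L Q' Q φ₁ hs Y, Set.ncard_empty, Nat.cast_zero, zero_div]

end H51.HC
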