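import Pool.Agent.H51.HC.Defs
import Pool.Agent.H48.MF.Ing

/-!
# [H51 HC TYP] the projections of `HX`

`Q : HX p N G P H`, `T = ker ph`.
* `hx_tc`: `ker ph` is mapped onto `Tc cP` (`Subgroup.map_normalClosure`). `hx_conj`: conjugacy in `G` of elements of `ker ph` (as `gx_conj`, H77/PLF/Gx.lean: `pr` is surjective, `ker ph` is normal).
* `hx_ty`, `hx_un`: types and unramified, as `gx_ty`, `gx_un`. In `hx_ty` from left to right: `ph (φ (t v)) = 1`, `(ph (φ τ))^p = 1` on inertia, so `ph (φ τ) = 1` by `H48.MF.ing_inr` (third part) for `ph.comp φ` (`TyC` contains `D.Gd v`, so `v ∉ S0`).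
* `hx_pair`: homomorphisms to `G` from `ψ : Γ → P` which is `pr ∘ φ₁` modulo `Tc cP`: `φ σ` is the unique `g` with `pr g = ψ σ`, `ph g = ph (φ₁ σ)`; finite type as in `gx_pair`.
* `hx_srj`: surjective if both components are (`Q.sur` for the range). `hx_tqt`: types up to conjugation by `ker ph` (as `gx_tqt`, H51/PF/Tyt.lean).
-/

set_option autoImplicit false

open scoped NumberField
open IsDedekindDomain H38.ML
open scoped Classical

noncomputable section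

namespace H51.HC

open H63.MA H38.BB H38.BG H57.PC H57.BRA H63.BU H77.PC3 H57.CC H38.AS H77.S0T H77.FLD H77.PLF
  H51.PF H51.F3

section grp

variable {p N : ℕ} {G P H : Type} [Group G] [Group P] [Group H]

theorem hx_tc (Q : HX p N G P H) : Q.ph.ker.map Q.pr = Tc Q.cP := by
  rw [Q.hT, Subgroup.map_normalClosure _ _ Q.prs]
  congr 1
  rw [← Set.range_comp]
  congr 1
  funext i
  exact Q.hcl i

theorem hx_cl (Q : HX p N G P H) (i : Fin N) : Q.ph (Q.cl.g i) = 1 := by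
  have h1 : Q.cl.g i ∈ Q.ph.ker := by
    rw [Q.hT]
    exact Subgroup.subset_normalClosure ⟨i, rfl⟩
  exact h1

/-- conjugacy in `G` of elements of the kernel of `ph` -/
theorem hx_conj (Q : HX p N G P H) (x y : G) (h : IsConj (Q.pr x) (Q.pr y)) (hx : Q.ph x = 1)
    (hy : Q.ph y = 1) : IsConj x y := by
  obtain ⟨c, hc⟩ := isConj_iff.1 h
  obtain ⟨g, rfl⟩ := Q.prs c
  refine isConj_iff.2 ⟨g, Q.inj _ _ ?_ ?_⟩
  · rw [map_mul, map_mul, map_inv, hc]
  · rw [map_mul, map_mul, map_inv, hx, hy, mul_one, mul_inv_cancel]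

theorem hx_srj (Q : HX p N G P H) {Γ : Type} [Group Γ] (φ : Γ →* G)
    (h1 : Function.Surjective (Q.pr.comp φ)) (h2 : Function.Surjective (Q.ph.comp φ)) :
    Function.Surjective φ := by
  rw [← MonoidHom.range_eq_top]
  refine Q.sur _ ?_ ?_
  · rw [MonoidHom.map_range]
    exact MonoidHom.range_eq_top.2 h1
  · rw [MonoidHom.map_range]
    exact MonoidHom.range_eq_top.2 h2

end grp

section loc

variable {K : Type} [Field K] [NumberField K] {Ω : Type} [Field Ω] [Algebra K Ω]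
  [IsAlgClosure K Ω] {p N : ℕ} {ζ : K} {G P H : Type} [Group G] [Group P] [Group H]

theorem hx_ty [Finite G] (hp : p.Prime) (hζ : IsPrimitiveRoot ζ p) (Q : HX p N G P H)
    {D : RD0 K p ζ} (L : LDs D Ω) (φ : Gal(Ω/K) →* G) (hφ : H38.ML.FT φ) (i : Fin N) (v : Pl K) :
    TyC Q.cl L φ i v ↔ TyC Q.cP L (Q.pr.comp φ) i v ∧ ∀ τ ∈ inr L v, Q.ph (φ τ) = 1 := by
  constructor
  · rintro ⟨h1, h2, h3⟩
    refine ⟨⟨h1, ?_, fun τ hτ => ?_⟩, ?_⟩
    · have h4 := Q.pr.map_isConj h2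
      rw [Q.hcl] at h4
      exact h4
    · rw [MonoidHom.comp_apply, ← map_pow, h3 τ hτ, map_one]
    · have : Finite H := Finite.of_surjective _ Q.phs
      have h4 := Q.ph.map_isConj h2
      rw [hx_cl, isConj_one_left] at h4
      have h5 := (H48.MF.ing_inr hp hζ L h1.1 (Q.ph.comp φ) (ft_comp _ _ hφ) fun τ hτ =>
        ⟨1, by rw [pow_one, MonoidHom.comp_apply, ← map_pow, h3 τ hτ, map_one]⟩).2.2
      exact h5 h4
  · rintro ⟨⟨h1, h2, h3⟩, h4⟩
    refine ⟨h1, ?_, fun τ hτ => ?_⟩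
    · refine hx_conj Q _ _ ?_ (h4 _ (uinr_t L v)) (hx_cl Q i)
      rw [Q.hcl]
      exact h2
    · refine Q.inj _ _ ?_ ?_
      · have h5 := h3 τ hτ
        rw [MonoidHom.comp_apply, ← map_pow] at h5
        rw [h5, map_one]
      · rw [map_pow, h4 τ hτ, one_pow, map_one]

omit [IsAlgClosure K Ω] in
theorem hx_un (Q : HX p N G P H) {D : RD0 K p ζ} (L : LDs D Ω)
    (φ : Gal(Ω/K) →* G) (v : Pl K) : (∀ τ ∈ inr L v, φ τ = 1) ↔
      (∀ τ ∈ inr L v, Q.pr (φ τ) = 1) ∧ ∀ τ ∈ inr L v, Q.ph (φ τ) = 1 := by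
  constructor
  · intro h
    exact ⟨fun τ hτ => by rw [h τ hτ, map_one], fun τ hτ => by rw [h τ hτ, map_one]⟩
  · rintro ⟨h1, h2⟩ τ hτ
    exact Q.inj _ _ (by rw [h1 τ hτ, map_one]) (by rw [h2 τ hτ, map_one])

omit [IsAlgClosure K Ω] in
theorem hx_pair (Q : HX p N G P H) (φ₁ : Gal(Ω/K) →* G) (h₁ : H38.ML.FT φ₁)
    (ψ : Gal(Ω/K) →* P) (hψ : H38.ML.FT ψ) (h : ∀ σ, (Q.pr (φ₁ σ))⁻¹ * ψ σ ∈ Tc Q.cP) :
    ∃ φ : Gal(Ω/K) →* G, H38.ML.FT φ ∧ Q.pr.comp φ = ψ ∧ Q.ph.comp φ = Q.ph.comp φ₁ := by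
  have hex : ∀ σ, ∃ g : G, Q.pr g = ψ σ ∧ Q.ph g = Q.ph (φ₁ σ) := by
    intro σ
    have h2 := h σ
    rw [← hx_tc Q] at h2
    obtain ⟨t, ht, h3⟩ := Subgroup.mem_map.1 h2
    refine ⟨φ₁ σ * t, ?_, ?_⟩
    · rw [map_mul, h3, mul_inv_cancel_left]
    · rw [map_mul, MonoidHom.mem_ker.1 ht, mul_one]
  choose f hf1 hf2 using hex
  refine ⟨MonoidHom.mk' f fun σ τ => ?_, ?_, ?_, ?_⟩
  · refine Q.inj _ _ ?_ ?_
    · rw [hf1, map_mul, map_mul, hf1, hf1]
    · rw [hf2, map_mul, map_mul, map_mul, hf2, hf2]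
  · obtain ⟨E, hE, hle⟩ := h₁
    obtain ⟨E', hE', hle'⟩ := hψ
    refine ⟨E ⊔ E', inferInstance, fun u hu => ?_⟩
    have e1 : u ∈ E.fixingSubgroup := IntermediateField.fixingSubgroup_antitone le_sup_left hu
    have e2 : u ∈ E'.fixingSubgroup :=
      IntermediateField.fixingSubgroup_antitone le_sup_right hu
    have e3 : φ₁ u = 1 := hle e1
    have e4 : ψ u = 1 := hle' e2
    rw [MonoidHom.mem_ker]
    refine Q.inj _ _ ?_ ?_
    · rw [map_one]
      exact (hf1 u).trans e4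
    · rw [map_one]
      refine (hf2 u).trans ?_
      rw [e3, map_one]
  · ext σ
    exact hf1 σ
  · ext σ
    exact hf2 σ

omit [IsAlgClosure K Ω] in
theorem hx_tqt (Q : HX p N G P H) (S : Finset (Pl K)) (Q' : DP K Ω) (φ φ' : Gal(Ω/K) →* G)
    (h : Q.ph.comp φ = Q.ph.comp φ') :
    TqT S Q' Q.ph.ker φ φ' ↔ TqT S Q' (Tc Q.cP) (Q.pr.comp φ) (Q.pr.comp φ') := by
  constructor
  · intro h0 v hv
    obtain ⟨g, hg, h1⟩ := h0 v hv
    refine ⟨Q.pr g, ?_, fun σ hσ => ?_⟩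
    · rw [← hx_tc Q]
      exact Subgroup.mem_map_of_mem _ hg
    · rw [MonoidHom.comp_apply, h1 σ hσ, map_mul, map_mul, map_inv, MonoidHom.comp_apply]
  · intro h0 v hv
    obtain ⟨t, ht, h3⟩ := h0 v hv
    rw [← hx_tc Q] at ht
    obtain ⟨g, hg, rfl⟩ := Subgroup.mem_map.1 ht
    refine ⟨g, hg, fun σ hσ => Q.inj _ _ ?_ ?_⟩
    · rw [map_mul, map_mul, map_inv]
      exact h3 σ hσ
    · rw [map_mul, map_mul, map_inv, MonoidHom.mem_ker.1 hg, one_mul, inv_one, mul_one]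
      exact DFunLike.congr_fun h σ

end loc

end H51.HC
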